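import Mathlib

set_option autoImplicit false

/-! Definitions for the orthowidth of the class of mixed smoothness in the uniform norm. -/

namespace Pool.Agent.Lib.MP_bdf388_an

open MeasureTheory
open scoped Real ENNReal ComplexConjugate

instance twoPiPos : Fact (0 < 2 * π) := ⟨Real.two_pi_pos⟩

/-- The torus of dimension `d` with period `2 π` in each variable. -/
abbrev Torus (d : ℕ) : Type := Fin d → AddCircle (2 * π)

/-- Normalised Lebesgue (Haar probability) measure on the torus. -/
noncomputable def torusMeasure (d : ℕ) : Measure (Torus d) :=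
  Measure.pi fun _ => AddCircle.haarAddCircle

/-- The univariate Bernoulli kernel, given by its series for `t` in `[0, 2 π)`. -/
noncomputable def bernoulliKernel (r : ℝ) : AddCircle (2 * π) → ℝ :=
  AddCircle.liftIco (2 * π) 0 fun t =>
    1 + 2 * ∑' k : ℕ, ((k : ℝ) + 1) ^ (-r) * Real.cos (((k : ℝ) + 1) * t - r * π / 2)

/-- The multivariate Bernoulli kernel. -/
noncomputable def mixedKernel (d : ℕ) (r : ℝ) (x : Torus d) : ℝ :=
  ∏ j, bernoulliKernel r (x j)

/-- The class of convolutions of the kernel with functions of the unit ball of `L_p`. -/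
def classW (d : ℕ) (r : ℝ) (p : ℝ≥0∞) : Set (Torus d → ℂ) :=
  {f | ∃ φ : Torus d → ℂ, MemLp φ p (torusMeasure d) ∧ eLpNorm φ p (torusMeasure d) ≤ 1 ∧
    f = fun x => ∫ y, (mixedKernel d r (x - y) : ℂ) * φ y ∂(torusMeasure d)}

/-- The inner product of `L_2`. -/
noncomputable def innerL2 (d : ℕ) (f g : Torus d → ℂ) : ℂ :=
  ∫ y, f y * conj (g y) ∂(torusMeasure d)

/-- Orthonormal systems of `m` functions in `L_2`. -/
def IsONS (d m : ℕ) (u : Fin m → Torus d → ℂ) : Prop :=
  (∀ i, MemLp (u i) 2 (torusMeasure d)) ∧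
    ∀ i j, innerL2 d (u i) (u j) = if i = j then 1 else 0

/-- The orthowidth of a class of functions in `L_q`. -/
noncomputable def orthowidth (d : ℕ) (F : Set (Torus d → ℂ)) (q : ℝ≥0∞) (m : ℕ) : ℝ≥0∞ :=
  ⨅ (u : Fin m → Torus d → ℂ) (_ : IsONS d m u), ⨆ f ∈ F,
    eLpNorm (fun x => f x - ∑ i, innerL2 d f (u i) * u i x) q (torusMeasure d)

/-- Some real polynomial of degree `d` with all `d + 1` coefficients positive has `exp (i π r)`
as a root of multiplicity at least `M`. -/
def Admissible (d : ℕ) (r : ℝ) (M : ℕ) : Prop :=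
  ∃ p : Polynomial ℝ, p.natDegree = d ∧ (∀ j ≤ d, 0 < p.coeff j) ∧
    M ≤ (p.map (algebraMap ℝ ℂ)).rootMultiplicity (Complex.exp (π * r * Complex.I))

open Classical in
/-- The largest admissible `M ≤ d - 1`. -/
noncomputable def logGain (d : ℕ) (r : ℝ) : ℕ := Nat.findGreatest (Admissible d r) (d - 1)

end Pool.Agent.Lib.MP_bdf388_an
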