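import Mathlib
import Pool.Agent.Lib.MP_bdf388_an.Defs

set_option autoImplicit false

/-! Characters of the torus and the Fourier expansion of the kernel. -/

namespace Pool.Agent.Lib.MP_bdf388_an

open MeasureTheory Filter Topology
open scoped Real ENNReal ComplexConjugate

instance (d : ℕ) : IsProbabilityMeasure (torusMeasure d) := by
  unfold torusMeasure; infer_instance

instance (d : ℕ) : (torusMeasure d).IsAddHaarMeasure := by
  unfold torusMeasure; infer_instance

instance (d : ℕ) : (torusMeasure d).IsNegInvariant :=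
  Measure.IsAddHaarMeasure.isNegInvariant_of_regular _

instance (d : ℕ) : (torusMeasure d).IsAddRightInvariant := by
  unfold torusMeasure; infer_instance

/-- The circle. -/
abbrev Circ : Type := AddCircle (2 * π)

/-- Haar probability measure on the circle. -/
noncomputable abbrev μ1 : Measure Circ := AddCircle.haarAddCircle

theorem fourier_arg_add (n : ℤ) (x y : Circ) : fourier n (x + y) = fourier n x * fourier n y := by
  simp only [fourier_apply, zsmul_add, AddCircle.toCircle_add, Circle.coe_mul]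

theorem fourier_arg_neg (n : ℤ) (x : Circ) : fourier n (-x) = conj (fourier n x) := by
  rw [← fourier_neg, fourier_apply, fourier_apply, smul_neg, neg_smul]

theorem norm_fourier (n : ℤ) (x : Circ) : ‖fourier n x‖ = 1 := Circle.norm_coe _

theorem fourier_coe (n : ℤ) (t : ℝ) :
    fourier n (t : Circ) = Complex.exp (n * t * Complex.I) := by
  rw [fourier_coe_apply]
  congr 1
  have : (π : ℂ) ≠ 0 := by exact_mod_cast Real.pi_ne_zero
  push_cast
  field_simp

theorem fourier_natCast (n : ℕ) (x : Circ) : fourier (n : ℤ) x = (fourier 1 x) ^ n := by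
  induction n with
  | zero => simp
  | succ n ih => rw [Nat.cast_succ, fourier_add, ih, pow_succ]

theorem integral_fourier_mul_conj (k l : ℤ) :
    ∫ t, fourier k t * conj (fourier l t) ∂μ1 = if k = l then 1 else 0 := by
  have h := congrFun (fourierCoeff_fourier (T := 2 * π) k) l
  rw [fourierCoeff] at h
  simp only [smul_eq_mul, fourier_neg] at h
  simp only [mul_comm (fourier k _)]
  rw [h, Pi.single_apply]
  simp only [eq_comm]

/-- The character of the torus with frequency `k`. -/
noncomputable def ek {d : ℕ} (k : Fin d → ℤ) (x : Torus d) : ℂ := ∏ j, fourier (k j) (x j)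

theorem ek_add {d : ℕ} (k : Fin d → ℤ) (x y : Torus d) : ek k (x + y) = ek k x * ek k y := by
  simp only [ek, Pi.add_apply, fourier_arg_add, Finset.prod_mul_distrib]

theorem ek_neg {d : ℕ} (k : Fin d → ℤ) (x : Torus d) : ek k (-x) = conj (ek k x) := by
  simp only [ek, Pi.neg_apply, fourier_arg_neg, map_prod]

theorem ek_sub {d : ℕ} (k : Fin d → ℤ) (x y : Torus d) :
    ek k (x - y) = ek k x * conj (ek k y) := by
  rw [sub_eq_add_neg, ek_add, ek_neg]

theorem norm_ek {d : ℕ} (k : Fin d → ℤ) (x : Torus d) : ‖ek k x‖ = 1 := by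
  simp only [ek, norm_prod, norm_fourier, Finset.prod_const_one]

@[fun_prop]
theorem continuous_ek {d : ℕ} (k : Fin d → ℤ) : Continuous (ek k) := by
  unfold ek
  fun_prop

theorem integral_ek_mul_conj {d : ℕ} (k l : Fin d → ℤ) :
    ∫ x, ek k x * conj (ek l x) ∂(torusMeasure d) = if k = l then 1 else 0 := by
  simp only [ek, map_prod, ← Finset.prod_mul_distrib]
  unfold torusMeasure
  rw [integral_fintype_prod_eq_prod (fun j (t : Circ) => fourier (k j) t * conj (fourier (l j) t))]
  simp only [integral_fourier_mul_conj]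
  split_ifs with h
  · simp [h]
  · obtain ⟨j, hj⟩ := Function.ne_iff.1 h
    exact Finset.prod_eq_zero (Finset.mem_univ j) (if_neg hj)

theorem integrable_of_continuous {d : ℕ} {E : Type} [NormedAddCommGroup E] {f : Torus d → E}
    (hf : Continuous f) : Integrable f (torusMeasure d) :=
  hf.integrable_of_hasCompactSupport (HasCompactSupport.of_compactSpace f)

theorem integrable_of_continuous1 {E : Type} [NormedAddCommGroup E] {f : Circ → E}
    (hf : Continuous f) : Integrable f μ1 :=
  hf.integrable_of_hasCompactSupport (HasCompactSupport.of_compactSpace f)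

/-- The phase of the positive frequencies. -/
noncomputable def om (r : ℝ) : ℂ := Complex.exp (-(r * π / 2 : ℝ) * Complex.I)

theorem norm_om (r : ℝ) : ‖om r‖ = 1 := by
  rw [om, ← Complex.ofReal_neg, Complex.norm_exp_ofReal_mul_I]

theorem om_mul_conj (r : ℝ) : om r * conj (om r) = 1 := by
  rw [Complex.mul_conj, Complex.normSq_eq_norm_sq, norm_om]
  simp

theorem conj_om_sq (r : ℝ) : conj (om r) * conj (om r) = Complex.exp (π * r * Complex.I) := by
  rw [om, ← Complex.exp_conj, ← Complex.exp_add]
  congr 1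
  simp only [map_mul, map_neg, Complex.conj_ofReal, Complex.conj_I]
  push_cast
  ring

/-- Fourier coefficients of the univariate kernel. -/
noncomputable def a1 (r : ℝ) (k : ℤ) : ℂ :=
  if k = 0 then 1 else (((k.natAbs : ℝ) ^ (-r) : ℝ) : ℂ) * (if 0 < k then om r else conj (om r))

theorem a1_zero (r : ℝ) : a1 r 0 = 1 := by simp [a1]

theorem a1_pos (r : ℝ) {n : ℕ} (hn : 0 < n) :
    a1 r n = (((n : ℝ) ^ (-r) : ℝ) : ℂ) * om r := by
  have : (n : ℤ) ≠ 0 := by omega
  have h2 : (0 : ℤ) < n := by omega
  simp only [a1, if_neg this, if_pos h2, Int.natAbs_natCast]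

theorem a1_neg (r : ℝ) {n : ℕ} (hn : 0 < n) :
    a1 r (-n) = (((n : ℝ) ^ (-r) : ℝ) : ℂ) * conj (om r) := by
  have : -(n : ℤ) ≠ 0 := by omega
  have h2 : ¬ (0 : ℤ) < -n := by omega
  simp only [a1, if_neg this, if_neg h2, Int.natAbs_neg, Int.natAbs_natCast]

theorem norm_a1 (r : ℝ) {k : ℤ} (hk : k ≠ 0) : ‖a1 r k‖ = (k.natAbs : ℝ) ^ (-r) := by
  rw [a1, if_neg hk, norm_mul, Complex.norm_real, Real.norm_of_nonneg (by positivity)]
  split_ifs <;> simp [norm_om]

theorem summable_succ_rpow {r : ℝ} (hr : 1 < r) :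
    Summable (fun k : ℕ => ((k : ℝ) + 1) ^ (-r)) := by
  have := (summable_nat_add_iff 1).2 (Real.summable_nat_rpow.2 (by linarith : -r < -1))
  simpa using this

theorem summable_norm_a1 {r : ℝ} (hr : 1 < r) : Summable (fun k : ℤ => ‖a1 r k‖) := by
  refine Summable.of_add_one_of_neg_add_one ?_ ?_
  · refine (summable_succ_rpow hr).congr (fun n => ?_)
    rw [norm_a1 r (by omega)]
    congr 1
    have : ((n : ℤ) + 1).natAbs = n + 1 := by omega
    rw [this]; simp
  · refine (summable_succ_rpow hr).congr (fun n => ?_)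
    rw [norm_a1 r (by omega)]
    congr 1
    have : (-((n : ℤ) + 1)).natAbs = n + 1 := by omega
    rw [this]; simp

theorem hasSum_bernoulli {r : ℝ} (hr : 1 < r) (x : Circ) :
    HasSum (fun k : ℤ => a1 r k * fourier k x) (bernoulliKernel r x : ℂ) := by
  obtain ⟨t, ht, rfl⟩ : ∃ t ∈ Set.Ico 0 (0 + 2 * π), (t : Circ) = x :=
    ⟨_, (AddCircle.equivIco (2 * π) 0 x).2, by simp⟩
  rw [bernoulliKernel, AddCircle.liftIco_coe_apply ht]
  let z : ℕ → ℂ := fun n => ((((n : ℝ) + 1) ^ (-r) : ℝ) : ℂ) *
    Complex.exp (((((n : ℝ) + 1) * t - r * π / 2 : ℝ) : ℂ) * Complex.I)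
  have hz : Summable z := by
    refine Summable.of_norm ((summable_succ_rpow hr).congr (fun n => ?_))
    simp only [z]
    rw [norm_mul, Complex.norm_exp_ofReal_mul_I, Complex.norm_real,
      Real.norm_of_nonneg (by positivity), mul_one]
  have h1 : ∀ n : ℕ, a1 r ((n : ℤ) + 1) * fourier ((n : ℤ) + 1) (t : Circ) = z n := by
    intro n
    have := a1_pos r (n := n + 1) (by omega)
    push_cast at this
    rw [this, fourier_coe, om, mul_assoc, ← Complex.exp_add]
    simp only [z]
    congr 2
    push_cast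
    ring
  have h2 : ∀ n : ℕ, a1 r (-((n : ℤ) + 1)) * fourier (-((n : ℤ) + 1)) (t : Circ) =
      conj (z n) := by
    intro n
    have h3 := a1_neg r (n := n + 1) (by omega)
    have h4 := a1_pos r (n := n + 1) (by omega)
    push_cast at h3 h4
    rw [← h1, h3, h4, fourier_neg]
    simp only [map_mul, Complex.conj_ofReal]
  have hs1 : HasSum (fun n : ℕ => a1 r ((n : ℤ) + 1) * fourier ((n : ℤ) + 1) (t : Circ))
      (∑' n, z n) := by simpa only [h1] using hz.hasSum
  have hs2 : HasSum (fun n : ℕ => a1 r (-((n : ℤ) + 1)) * fourier (-((n : ℤ) + 1)) (t : Circ))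
      (conj (∑' n, z n)) := by
    simp only [h2]
    exact (Complex.hasSum_conj').2 hz.hasSum
  have hs := HasSum.of_add_one_of_neg_add_one
    (f := fun k : ℤ => a1 r k * fourier k (t : Circ)) hs1 hs2
  convert hs using 1
  have hre : (∑' n, z n).re =
      ∑' k : ℕ, ((k : ℝ) + 1) ^ (-r) * Real.cos (((k : ℝ) + 1) * t - r * π / 2) := by
    rw [Complex.re_tsum hz]
    refine tsum_congr (fun n => ?_)
    simp only [z]
    rw [Complex.re_ofReal_mul, Complex.exp_ofReal_mul_I_re]
  rw [← hre, a1_zero, fourier_zero, add_right_comm, Complex.add_conj]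
  push_cast
  ring

theorem continuous_bernoulli {r : ℝ} (hr : 1 < r) :
    Continuous (fun x : Circ => (bernoulliKernel r x : ℂ)) := by
  have : (fun x : Circ => (bernoulliKernel r x : ℂ)) =
      fun x => ∑' k : ℤ, a1 r k * fourier k x := by
    funext x
    exact (hasSum_bernoulli hr x).tsum_eq.symm
  rw [this]
  refine continuous_tsum (fun k => by fun_prop) (summable_norm_a1 hr) (fun k x => ?_)
  rw [norm_mul, norm_fourier, mul_one]

theorem integral_bernoulli_mul_conj {r : ℝ} (hr : 1 < r) (l : ℤ) :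
    ∫ t, (bernoulliKernel r t : ℂ) * conj (fourier l t) ∂μ1 = a1 r l := by
  have h := hasSum_integral_of_summable_integral_norm (μ := μ1)
    (F := fun (k : ℤ) (t : Circ) => a1 r k * fourier k t * conj (fourier l t))
    (fun k => integrable_of_continuous1 (by fun_prop)) (by
      refine (summable_norm_a1 hr).congr (fun k => ?_)
      simp)
  have h2 : ∀ t : Circ, ∑' k : ℤ, a1 r k * fourier k t * conj (fourier l t) =
      (bernoulliKernel r t : ℂ) * conj (fourier l t) := fun t =>
    ((hasSum_bernoulli hr t).mul_right _).tsum_eq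
  simp only [h2] at h
  have h3 : ∀ k : ℤ, ∫ t, a1 r k * fourier k t * conj (fourier l t) ∂μ1 =
      if k = l then a1 r l else 0 := by
    intro k
    simp only [mul_assoc]
    rw [integral_const_mul, integral_fourier_mul_conj]
    split_ifs with h <;> simp [h]
  simp only [h3] at h
  exact h.unique (hasSum_ite_eq l (a1 r l))

/-- The kernel with complex values. -/
noncomputable def Fc (d : ℕ) (r : ℝ) (x : Torus d) : ℂ := (mixedKernel d r x : ℂ)

theorem Fc_eq (d : ℕ) (r : ℝ) (x : Torus d) :
    Fc d r x = ∏ j, (bernoulliKernel r (x j) : ℂ) := by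
  simp [Fc, mixedKernel]

theorem continuous_Fc (d : ℕ) {r : ℝ} (hr : 1 < r) : Continuous (Fc d r) := by
  have : Fc d r = fun x => ∏ j, (bernoulliKernel r (x j) : ℂ) := funext (Fc_eq d r)
  rw [this]
  exact continuous_finsetProd _ (fun j _ => (continuous_bernoulli hr).comp (continuous_apply j))

/-- Fourier coefficients of the multivariate kernel. -/
noncomputable def Ak {d : ℕ} (r : ℝ) (k : Fin d → ℤ) : ℂ := ∏ j, a1 r (k j)

theorem integral_Fc_mul_conj (d : ℕ) {r : ℝ} (hr : 1 < r) (k : Fin d → ℤ) :
    ∫ x, Fc d r x * conj (ek k x) ∂(torusMeasure d) = Ak r k := by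
  simp only [Fc_eq, ek, map_prod, ← Finset.prod_mul_distrib]
  unfold torusMeasure
  rw [integral_fintype_prod_eq_prod
    (fun j (t : Circ) => (bernoulliKernel r t : ℂ) * conj (fourier (k j) t))]
  simp only [integral_bernoulli_mul_conj hr, Ak]

theorem conv_ek (d : ℕ) {r : ℝ} (hr : 1 < r) (k : Fin d → ℤ) (x : Torus d) :
    ∫ y, Fc d r (x - y) * ek k y ∂(torusMeasure d) = Ak r k * ek k x := by
  rw [← integral_sub_left_eq_self _ _ x]
  simp only [sub_sub_cancel, ek_sub]
  rw [← integral_Fc_mul_conj d hr, ← integral_mul_const]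
  congr 1
  funext y
  ring

theorem shift_Fc_coeff (d : ℕ) {r : ℝ} (hr : 1 < r) (k : Fin d → ℤ) (y : Torus d) :
    ∫ z, Fc d r (z - y) * conj (ek k z) ∂(torusMeasure d) = Ak r k * conj (ek k y) := by
  rw [← integral_add_right_eq_self _ y]
  simp only [add_sub_cancel_right, ek_add, map_mul]
  rw [← integral_Fc_mul_conj d hr, ← integral_mul_const]
  congr 1
  funext y
  ring

end Pool.Agent.Lib.MP_bdf388_an
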