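import Mathlib
import Pool.Agent.Lib.MP_bdf388_an.Basic

set_option autoImplicit false

/-! Test kernels with controlled integral norm. -/

namespace Pool.Agent.Lib.MP_bdf388_an

open MeasureTheory Filter Topology Finset
open scoped Real ENNReal ComplexConjugate

/-- A trigonometric polynomial of degree at most `R`. -/
noncomputable def tp (R : ℕ) (c : ℤ → ℂ) (t : Circ) : ℂ :=
  ∑ k ∈ Icc (-(R : ℤ)) R, c k * fourier k t

/-- Its integral norm. -/
noncomputable def nL1 (R : ℕ) (c : ℤ → ℂ) : ℝ := ∫ t, ‖tp R c t‖ ∂μ1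

@[fun_prop]
theorem continuous_tp (R : ℕ) (c : ℤ → ℂ) : Continuous (tp R c) := by
  unfold tp
  fun_prop

theorem nL1_nonneg (R : ℕ) (c : ℤ → ℂ) : 0 ≤ nL1 R c :=
  integral_nonneg (fun _ => norm_nonneg _)

theorem parseval1 (A : Finset ℤ) (α : ℤ → ℝ) :
    ∫ t, ‖∑ a ∈ A, (α a : ℂ) * fourier a t‖ ^ 2 ∂μ1 = ∑ a ∈ A, α a ^ 2 := by
  apply Complex.ofReal_injective
  rw [← integral_complex_ofReal]
  have h1 : ∀ t : Circ, ((‖∑ a ∈ A, (α a : ℂ) * fourier a t‖ ^ 2 : ℝ) : ℂ) =
      ∑ a ∈ A, ∑ b ∈ A, ((α a : ℂ) * α b) * (fourier a t * conj (fourier b t)) := by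
    intro t
    rw [← Complex.normSq_eq_norm_sq, ← Complex.mul_conj, map_sum, sum_mul_sum]
    refine sum_congr rfl (fun a _ => sum_congr rfl (fun b _ => ?_))
    simp only [map_mul, Complex.conj_ofReal]
    ring
  simp only [h1]
  rw [integral_finsetSum _ (fun a _ => integrable_of_continuous1 (by fun_prop))]
  push_cast
  refine sum_congr rfl (fun a ha => ?_)
  rw [integral_finsetSum _ (fun a _ => integrable_of_continuous1 (by fun_prop))]
  simp only [integral_const_mul, integral_fourier_mul_conj, mul_ite, mul_one, mul_zero,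
    sum_ite_eq, if_pos ha]
  ring

/-- Convolution of two finitely supported sequences. -/
noncomputable def cv (A B : Finset ℤ) (α β : ℤ → ℝ) (k : ℤ) : ℝ :=
  ∑ a ∈ A, if k - a ∈ B then α a * β (k - a) else 0

theorem tp_cv (A B : Finset ℤ) (α β : ℤ → ℝ) (R : ℕ)
    (h : ∀ a ∈ A, ∀ b ∈ B, a + b ∈ Icc (-(R : ℤ)) R) (t : Circ) :
    tp R (fun k => (cv A B α β k : ℂ)) t =
      (∑ a ∈ A, (α a : ℂ) * fourier a t) * (∑ b ∈ B, (β b : ℂ) * fourier b t) := by
  simp only [tp, cv]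
  push_cast
  simp only [sum_mul]
  rw [sum_comm]
  refine sum_congr rfl (fun a ha => ?_)
  rw [mul_sum]
  symm
  refine sum_of_injOn (fun b => a + b) (fun b _ b' _ hb => by simpa using hb)
    (fun b hb => h a ha b hb) ?_ ?_
  · intro k _ hk
    rw [if_neg]
    · simp
    · intro hb
      exact hk ⟨k - a, hb, by simp⟩
  · intro b hb
    simp only [add_sub_cancel_left, if_pos hb, fourier_add]
    push_cast
    ring

theorem nL1_cv_le (A B : Finset ℤ) (α β : ℤ → ℝ) (R : ℕ)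
    (h : ∀ a ∈ A, ∀ b ∈ B, a + b ∈ Icc (-(R : ℤ)) R) {s : ℝ} (hs : 0 < s) :
    nL1 R (fun k => (cv A B α β k : ℂ)) ≤
      (s * ∑ a ∈ A, α a ^ 2 + s⁻¹ * ∑ b ∈ B, β b ^ 2) / 2 := by
  rw [← parseval1, ← parseval1, ← integral_const_mul, ← integral_const_mul,
    ← integral_add (integrable_of_continuous1 (by fun_prop))
      (integrable_of_continuous1 (by fun_prop)), ← integral_div, nL1]
  refine integral_mono (integrable_of_continuous1 (by fun_prop))
    (integrable_of_continuous1 (by fun_prop)) (fun t => ?_)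
  simp only [tp_cv A B α β R h, norm_mul]
  generalize ‖∑ a ∈ A, (α a : ℂ) * fourier a t‖ = x
  generalize ‖∑ b ∈ B, (β b : ℂ) * fourier b t‖ = y
  have : s * x ^ 2 + s⁻¹ * y ^ 2 - 2 * (x * y) = s⁻¹ * (s * x - y) ^ 2 := by
    field_simp
    ring
  have h2 : 0 ≤ s⁻¹ * (s * x - y) ^ 2 := by positivity
  linarith

theorem nL1_sub_delta (R : ℕ) (c : ℤ → ℂ) :
    nL1 R (fun k => c k - if k = 0 then 1 else 0) ≤ nL1 R c + 1 := by
  have h1 : ∀ t, tp R (fun k => c k - if k = 0 then 1 else 0) t = tp R c t - 1 := by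
    intro t
    simp only [tp, sub_mul, sum_sub_distrib, ite_mul, one_mul, zero_mul, sum_ite_eq']
    rw [if_pos (by simp), fourier_zero]
  have h2 : nL1 R c + 1 = ∫ t, (‖tp R c t‖ + 1) ∂μ1 := by
    rw [integral_add (integrable_of_continuous1 (by fun_prop)) (integrable_const _)]
    simp [nL1]
  rw [h2, nL1]
  refine integral_mono (integrable_of_continuous1 (by fun_prop))
    (integrable_of_continuous1 (by fun_prop)) (fun t => ?_)
  simp only [h1]
  simpa using norm_sub_le (tp R c t) 1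

/-- A trapezoidal multiplier. -/
noncomputable def trap (h : ℕ) (b0 b1 : ℤ) : ℤ → ℝ :=
  cv (Ico 0 (h : ℤ)) (Ico b0 b1) (fun _ => (h : ℝ)⁻¹) (fun _ => 1)

theorem trap_nonneg (h : ℕ) (b0 b1 k : ℤ) : 0 ≤ trap h b0 b1 k := by
  rw [trap, cv]
  refine sum_nonneg (fun a _ => ?_)
  split_ifs <;> positivity

theorem trap_eq_one {h : ℕ} (hh : 0 < h) {b0 b1 k : ℤ} (h0 : b0 + h - 1 ≤ k) (h1 : k < b1) :
    trap h b0 b1 k = 1 := by
  simp only [trap, cv]
  rw [sum_congr rfl (g := fun _ => (h : ℝ)⁻¹)]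
  · simp only [sum_const, Int.card_Ico, sub_zero, Int.toNat_natCast, nsmul_eq_mul]
    field_simp
  · intro a ha
    rw [mem_Ico] at ha
    rw [if_pos (by rw [mem_Ico]; omega), mul_one]

theorem trap_eq_zero {h : ℕ} {b0 b1 k : ℤ} (hk : k < b0 ∨ b1 + h - 1 ≤ k) :
    trap h b0 b1 k = 0 := by
  rw [trap, cv]
  refine sum_eq_zero (fun a ha => ?_)
  rw [mem_Ico] at ha
  rw [if_neg (by rw [mem_Ico]; omega)]

theorem nL1_trap {h : ℕ} (hh : 0 < h) {b0 b1 : ℤ} (R : ℕ) (hb : b1 - b0 ≤ 3 * h)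
    (h0 : -(R : ℤ) ≤ b0) (h1 : b1 + h - 2 ≤ R) :
    nL1 R (fun k => (trap h b0 b1 k : ℂ)) ≤ 2 := by
  have hh' : (0 : ℝ) < h := by exact_mod_cast hh
  refine (nL1_cv_le _ _ _ _ R ?_ hh').trans ?_
  · intro a ha b hb
    rw [mem_Ico] at ha hb
    rw [mem_Icc]
    omega
  · simp only [sum_const, Int.card_Ico, sub_zero, Int.toNat_natCast, nsmul_eq_mul, one_pow,
      mul_one]
    have h2 : (((b1 - b0).toNat : ℕ) : ℝ) ≤ 3 * h := by
      have : (b1 - b0).toNat ≤ 3 * h := by omega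
      exact_mod_cast this
    have h3 : (h : ℝ)⁻¹ * ((b1 - b0).toNat : ℕ) ≤ 3 := by
      rw [inv_mul_le_iff₀ hh']
      linarith
    have h4 : (h : ℝ) * (h * ((h : ℝ)⁻¹) ^ 2) = 1 := by field_simp
    linarith

/-- Taylor coefficients of the inverse square root of `1 - z`. -/
noncomputable def hh : ℕ → ℝ
  | 0 => 1
  | n + 1 => hh n * (2 * n + 1) / (2 * n + 2)

theorem hh_sq_le (n : ℕ) : hh n ^ 2 ≤ 1 / (2 * n + 1) := by
  induction n with
  | zero => simp [hh]
  | succ n ih =>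
    rw [hh]
    have h0 : (0 : ℝ) ≤ n := Nat.cast_nonneg n
    rw [le_div_iff₀ (by positivity)] at ih ⊢
    push_cast
    have : (hh n * (2 * n + 1) / (2 * n + 2)) ^ 2 * (2 * (n + 1) + 1) =
        (hh n ^ 2 * (2 * n + 1)) * (((2 * n + 1) * (2 * n + 3)) / (2 * n + 2) ^ 2) := by
      field_simp
      ring
    rw [this]
    refine mul_le_one₀ ih (by positivity) ?_
    rw [div_le_one (by positivity)]
    nlinarith

theorem hh_conv (k : ℕ) : ∑ p ∈ HasAntidiagonal.antidiagonal k, hh p.1 * hh p.2 = 1 := by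
  have hsym : ∀ k : ℕ, 2 * ∑ p ∈ HasAntidiagonal.antidiagonal k, (p.1 : ℝ) * (hh p.1 * hh p.2) =
      k * ∑ p ∈ HasAntidiagonal.antidiagonal k, hh p.1 * hh p.2 := by
    intro k
    have h1 := Finset.Nat.sum_antidiagonal_swap (n := k)
      (f := fun p => (p.1 : ℝ) * (hh p.1 * hh p.2))
    rw [two_mul]
    nth_rewrite 1 [← h1]
    rw [← sum_add_distrib, mul_sum]
    refine sum_congr rfl (fun p hp => ?_)
    rw [HasAntidiagonal.mem_antidiagonal] at hp
    simp only [Prod.fst_swap, Prod.snd_swap, ← hp]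
    push_cast
    ring
  induction k with
  | zero => simp [hh]
  | succ k ih =>
    have h1 := hsym (k + 1)
    have h2 := hsym k
    rw [Finset.Nat.sum_antidiagonal_succ] at h1
    have h3 : 2 * ∑ p ∈ HasAntidiagonal.antidiagonal k, ((p.1 + 1 : ℕ) : ℝ) * (hh (p.1 + 1) * hh p.2) =
        2 * ∑ p ∈ HasAntidiagonal.antidiagonal k, (p.1 : ℝ) * (hh p.1 * hh p.2) +
          ∑ p ∈ HasAntidiagonal.antidiagonal k, hh p.1 * hh p.2 := by
      rw [mul_sum, mul_sum, ← sum_add_distrib]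
      refine sum_congr rfl (fun p _ => ?_)
      rw [hh]
      push_cast
      field_simp
    simp only [Nat.cast_zero, zero_mul, zero_add] at h1
    rw [h3, h2, ih] at h1
    push_cast at h1
    have h4 : ((k : ℝ) + 1) ≠ 0 := by positivity
    apply mul_left_cancel₀ h4
    linarith

/-- A multiplier equal to one on `[-K, 0]` and zero on the positive integers. -/
noncomputable def lan (K : ℕ) : ℤ → ℝ :=
  cv (Icc (-(K : ℤ)) 0) (Icc (-(K : ℤ)) 0) (fun a => hh a.natAbs) (fun a => hh a.natAbs)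

theorem lan_eq_zero {K : ℕ} {k : ℤ} (hk : 0 < k) : lan K k = 0 := by
  rw [lan, cv]
  refine sum_eq_zero (fun a ha => ?_)
  rw [mem_Icc] at ha
  rw [if_neg (by rw [mem_Icc]; omega)]

theorem lan_eq_one {K : ℕ} {k : ℤ} (h0 : -(K : ℤ) ≤ k) (h1 : k ≤ 0) : lan K k = 1 := by
  rw [← hh_conv k.natAbs, lan, cv]
  symm
  refine sum_of_injOn (fun p => -(p.1 : ℤ)) ?_ ?_ ?_ ?_
  · intro p hp p' hp' h
    simp only [mem_coe, HasAntidiagonal.mem_antidiagonal] at hp hp'
    simp only at h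
    ext <;> omega
  · intro p hp
    simp only [mem_coe, HasAntidiagonal.mem_antidiagonal, mem_Icc] at hp ⊢
    omega
  · intro a ha hn
    rw [mem_Icc] at ha
    rw [if_neg]
    intro hb
    rw [mem_Icc] at hb
    refine hn ⟨(a.natAbs, (k - a).natAbs), ?_, ?_⟩
    · simp only [mem_coe, HasAntidiagonal.mem_antidiagonal]
      omega
    · simp only
      omega
  · intro p hp
    rw [HasAntidiagonal.mem_antidiagonal] at hp
    rw [if_pos (by rw [mem_Icc]; omega)]
    congr 2 <;> omega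

theorem nL1_lan (s : ℕ) (R : ℕ) (hR : 2 * 2 ^ s ≤ R) :
    nL1 R (fun k => (lan (2 ^ s) k : ℂ)) ≤ s + 2 := by
  refine (nL1_cv_le _ _ _ _ R ?_ one_pos).trans ?_
  · intro a ha b hb
    rw [mem_Icc] at ha hb ⊢
    omega
  · have h1 : ∑ a ∈ Icc (-((2 ^ s : ℕ) : ℤ)) 0, hh a.natAbs ^ 2 =
        ∑ i ∈ range (2 ^ s + 1), hh i ^ 2 := by
      symm
      refine sum_nbij' (fun i => -(i : ℤ)) (fun a => a.natAbs) ?_ ?_ ?_ ?_ ?_
      · intro i hi
        rw [mem_range] at hi
        rw [mem_Icc]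
        omega
      · intro a ha
        rw [mem_Icc] at ha
        rw [mem_range]
        omega
      · intro i _
        simp
      · intro a ha
        rw [mem_Icc] at ha
        omega
      · intro i _
        simp
    have h2 : ∑ i ∈ range (2 ^ s + 1), hh i ^ 2 ≤ (harmonic (2 ^ s + 1) : ℝ) := by
      rw [harmonic]
      push_cast
      refine sum_le_sum (fun i _ => (hh_sq_le i).trans ?_)
      rw [one_div]
      have h0 : (0 : ℝ) ≤ i := Nat.cast_nonneg i
      exact inv_anti₀ (by positivity) (by linarith)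
    have h3 := harmonic_le_one_add_log (2 ^ s + 1)
    have h4 : Real.log ((2 ^ s + 1 : ℕ) : ℝ) ≤ s + 1 := by
      have h5 : ((2 ^ s + 1 : ℕ) : ℝ) ≤ 2 ^ (s + 1) := by
        have : 2 ^ s + 1 ≤ 2 ^ (s + 1) := by
          have := Nat.one_le_two_pow (n := s)
          omega
        exact_mod_cast this
      calc Real.log ((2 ^ s + 1 : ℕ) : ℝ) ≤ Real.log (2 ^ (s + 1)) :=
            Real.log_le_log (by positivity) h5
        _ = (s + 1) * Real.log 2 := by rw [Real.log_pow]; push_cast; ring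
        _ ≤ (s + 1) * 1 := by
            gcongr
            have := Real.log_two_lt_d9
            linarith
        _ = s + 1 := mul_one _
    rw [h1]
    linarith

/-- The box of frequencies. -/
noncomputable def box (d R : ℕ) : Finset (Fin d → ℤ) :=
  Fintype.piFinset (fun _ => Icc (-(R : ℤ)) R)

theorem sum_box_prod {d : ℕ} (R : ℕ) (c : Fin d → ℤ → ℂ) (x : Torus d) :
    ∑ k ∈ box d R, (∏ j, c j (k j)) * ek k x = ∏ j, tp R (c j) (x j) := by
  simp only [tp, box, ek, prod_univ_sum, ← prod_mul_distrib]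

theorem integral_box_prod {d : ℕ} (R : ℕ) (c : Fin d → ℤ → ℂ) :
    ∫ x, ‖∑ k ∈ box d R, (∏ j, c j (k j)) * ek k x‖ ∂(torusMeasure d) = ∏ j, nL1 R (c j) := by
  simp only [sum_box_prod, norm_prod]
  unfold torusMeasure
  rw [integral_fintype_prod_eq_prod (fun j (t : Circ) => ‖tp R (c j) t‖)]
  rfl

end Pool.Agent.Lib.MP_bdf388_an
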