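import Mathlib
import Pool.Agent.Lib.MP_bdf388_an.Defs

set_option autoImplicit false

/-! The algebraic alternative: positive weights or a certificate. -/

namespace Pool.Agent.Lib.MP_bdf388_an

open Finset Polynomial
open scoped Real

/-- The root. -/
noncomputable def zr (r : ℝ) : ℂ := Complex.exp (π * r * Complex.I)

theorem zr_ne_zero (r : ℝ) : zr r ≠ 0 := Complex.exp_ne_zero _

theorem root_iff {d M : ℕ} {z : ℂ} (hz : z ≠ 0) (P : ℂ[X]) (hP : P ≠ 0) (hd : P.natDegree ≤ d) :
    M ≤ P.rootMultiplicity z ↔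
      ∀ a < M, ∑ j ∈ range (d + 1), P.coeff j * z ^ j * (j.choose a : ℂ) = 0 := by
  rw [le_rootMultiplicity_iff hP, X_sub_C_pow_dvd_iff, X_pow_dvd_iff]
  refine forall₂_congr (fun a _ => ?_)
  rw [← taylor_apply, taylor_coeff]
  have h1 : z ^ a * (hasseDeriv a P).eval z =
      ∑ j ∈ range (d + 1), P.coeff j * z ^ j * (j.choose a : ℂ) := by
    conv_lhs => rw [P.as_sum_range' (d + 1) (by omega)]
    rw [map_sum, eval_finsetSum, mul_sum]
    refine sum_congr rfl (fun j _ => ?_)
    rw [hasseDeriv_monomial, eval_monomial]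
    rcases le_or_gt a j with h | h
    · have : z ^ j = z ^ a * z ^ (j - a) := by rw [← pow_add]; congr 1; omega
      rw [this]
      ring
    · simp [Nat.choose_eq_zero_of_lt h]
  rw [← h1]
  simp [hz]

theorem exists_weights {d M : ℕ} {r : ℝ} (h : Admissible d r M) :
    ∃ c : ℕ → ℝ, (∀ j ≤ d, 0 < c j) ∧ ∀ I : Finset (Fin d), I.card < M →
      ∑ J : Finset (Fin d) with I ⊆ J, (c J.card : ℂ) * zr r ^ J.card = 0 := by
  obtain ⟨p, hdeg, hpos, hroot⟩ := h
  have hp0 : p.map (algebraMap ℝ ℂ) ≠ 0 := by
    rw [Ne, Polynomial.map_eq_zero]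
    intro h0
    have := hpos 0 (Nat.zero_le _)
    simp [h0] at this
  rw [root_iff (d := d) (Complex.exp_ne_zero _) _ hp0 (by rw [natDegree_map, hdeg])] at hroot
  refine ⟨fun j => p.coeff j / (d.choose j : ℝ), fun j hj =>
    div_pos (hpos j hj) (by exact_mod_cast Nat.choose_pos hj), fun I hI => ?_⟩
  have ha : I.card ≤ d := by simpa using card_le_univ I
  have h1 : ∑ J : Finset (Fin d) with I ⊆ J,
      ((p.coeff J.card / (d.choose J.card : ℝ) : ℝ) : ℂ) * zr r ^ J.card =
      ∑ J ∈ (Iᶜ).powerset, ((p.coeff (I.card + J.card) / (d.choose (I.card + J.card) : ℝ) : ℝ) : ℂ) *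
        zr r ^ (I.card + J.card) := by
    symm
    refine sum_nbij' (fun J => I ∪ J) (fun J => J \ I) ?_ ?_ ?_ ?_ ?_
    · intro J _
      simp
    · intro J _
      rw [mem_powerset]
      intro x hx
      simp only [mem_sdiff] at hx
      simpa using hx.2
    · intro J hJ
      rw [mem_powerset, subset_compl_iff_disjoint_right] at hJ
      rw [union_sdiff_left, sdiff_eq_self_of_disjoint hJ]
    · intro J hJ
      simp only [mem_filter, mem_univ, true_and] at hJ
      exact union_sdiff_of_subset hJ
    · intro J hJ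
      rw [mem_powerset, subset_compl_iff_disjoint_left] at hJ
      rw [card_union_of_disjoint hJ]
  rw [h1, sum_powerset_apply_card (fun i => ((p.coeff (I.card + i) /
    (d.choose (I.card + i) : ℝ) : ℝ) : ℂ) * zr r ^ (I.card + i))]
  have h2 := hroot I.card hI
  have h3 : ∑ j ∈ range (d + 1), (p.map (algebraMap ℝ ℂ)).coeff j *
      Complex.exp (π * r * Complex.I) ^ j * (j.choose I.card : ℂ) =
      ∑ i ∈ range (d - I.card + 1), (p.coeff (I.card + i) : ℂ) * zr r ^ (I.card + i) *
        ((I.card + i).choose I.card : ℂ) := by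
    have : d + 1 = I.card + (d - I.card + 1) := by omega
    rw [this, sum_range_add, sum_eq_zero, zero_add]
    · simp [zr]
    · intro j hj
      rw [Nat.choose_eq_zero_of_lt (mem_range.1 hj)]
      simp
  rw [h3] at h2
  have hc : (d.choose I.card : ℂ) ≠ 0 := by exact_mod_cast (Nat.choose_pos ha).ne'
  apply mul_left_cancel₀ hc
  rw [mul_zero, ← h2, card_compl, Fintype.card_fin, mul_sum]
  refine sum_congr rfl (fun i hi => ?_)
  rw [mem_range] at hi
  have h4 : (d.choose (I.card + i) : ℂ) ≠ 0 := by
    exact_mod_cast (Nat.choose_pos (by omega)).ne'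
  have h5 := Nat.choose_mul (n := d) (k := I.card + i) (s := I.card) (by omega)
  rw [Nat.add_sub_cancel_left] at h5
  have h6 : (d.choose (I.card + i) : ℂ) * ((I.card + i).choose I.card : ℂ) =
      (d.choose I.card : ℂ) * ((d - I.card).choose i : ℂ) := by exact_mod_cast h5
  rw [nsmul_eq_mul]
  push_cast
  field_simp
  linear_combination (-(p.coeff (I.card + i) : ℂ) * zr r ^ (I.card + i)) * h6

theorem exists_certificate {d M : ℕ} {r : ℝ} (h : ¬ Admissible d r (M + 1)) :
    ∃ q : ℕ → ℂ, (∀ a, M < a → q a = 0) ∧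
      (∀ j ≤ d, 0 ≤ (zr r ^ j * ∑ a ∈ range (j + 1), (j.choose a : ℂ) * q a).re) ∧
      ∃ j ≤ d, 0 < (zr r ^ j * ∑ a ∈ range (j + 1), (j.choose a : ℂ) * q a).re := by
  let L : (Fin (M + 1) → ℂ) →ₗ[ℝ] (Fin (d + 1) → ℝ) :=
    { toFun := fun q j => (zr r ^ (j : ℕ) * ∑ a : Fin (M + 1), ((j : ℕ).choose a : ℂ) * q a).re
      map_add' := by
        intro q q'
        funext j
        simp only [Pi.add_apply, mul_add, sum_add_distrib, Complex.add_re]
      map_smul' := by
        intro t q
        funext j
        simp only [Pi.smul_apply, Complex.real_smul, RingHom.id_apply, smul_eq_mul]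
        rw [← Complex.re_ofReal_mul, mul_sum, mul_sum, mul_sum]
        congr 1
        exact sum_congr rfl (fun a _ => by ring) }
  by_cases hdisj : Disjoint (LinearMap.range L : Set (Fin (d + 1) → ℝ)) (stdSimplex ℝ (Fin (d + 1)))
  · exfalso
    obtain ⟨f, u, v, hu, huv, hv⟩ := geometric_hahn_banach_closed_compact
      (LinearMap.range L).convex (LinearMap.range L).closed_of_finiteDimensional
      (convex_stdSimplex ℝ _) (isCompact_stdSimplex ℝ _) hdisj
    have hu0 : 0 < u := by simpa using hu 0 (LinearMap.range L).zero_mem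
    have hf0 : ∀ y ∈ LinearMap.range L, f y = 0 := by
      intro y hy
      by_contra hne
      have := hu ((u / f y) • y) ((LinearMap.range L).smul_mem _ hy)
      rw [map_smul, smul_eq_mul, div_mul_cancel₀ _ hne] at this
      exact lt_irrefl _ this
    let w : Fin (d + 1) → ℝ := fun j => f (Pi.single j 1)
    have hw : ∀ j, 0 < w j := fun j =>
      (hu0.trans huv).trans (hv _ (single_mem_stdSimplex ℝ j))
    have hf : ∀ y : Fin (d + 1) → ℝ, f y = ∑ j, y j * w j := by
      intro y
      conv_lhs => rw [pi_eq_sum_univ' y]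
      simp only [map_sum, map_smul, smul_eq_mul, w]
    let p : ℝ[X] := ∑ j : Fin (d + 1), monomial j (w j)
    have hcoeff : ∀ j : Fin (d + 1), p.coeff j = w j := by
      intro j
      simp only [p, finsetSum_coeff, coeff_monomial, Fin.val_inj, sum_ite_eq', mem_univ, if_true]
    have hle : p.natDegree ≤ d := by
      refine natDegree_sum_le_of_forall_le _ _ (fun j _ => ?_)
      exact (natDegree_monomial_le _).trans (by omega)
    have hpos : ∀ j ≤ d, 0 < p.coeff j := fun j hj => by
      have := hcoeff ⟨j, by omega⟩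
      simp only at this
      rw [this]
      exact hw _
    have hdeg : p.natDegree = d := le_antisymm hle (le_natDegree_of_ne_zero (hpos d le_rfl).ne')
    have hp0 : p.map (algebraMap ℝ ℂ) ≠ 0 := by
      rw [Ne, Polynomial.map_eq_zero]
      intro h0
      have := hpos 0 (Nat.zero_le _)
      simp [h0] at this
    refine h ⟨p, hdeg, hpos, ?_⟩
    rw [root_iff (d := d) (Complex.exp_ne_zero _) _ hp0 (by rw [natDegree_map, hdeg])]
    intro a ha
    rw [sum_range]
    simp only [coeff_map, hcoeff, Complex.coe_algebraMap]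
    have key : ∀ t : ℂ, (t * ∑ j : Fin (d + 1), (w j : ℂ) * zr r ^ (j : ℕ) *
        ((j : ℕ).choose a : ℂ)).re = 0 := by
      intro t
      have h1 := hf0 _ ⟨Pi.single ⟨a, ha⟩ t, rfl⟩
      rw [hf] at h1
      rw [← h1, mul_sum, Complex.re_sum]
      refine sum_congr rfl (fun j _ => ?_)
      simp only [L, LinearMap.coe_mk, AddHom.coe_mk, Pi.single_apply, mul_ite, mul_zero,
        sum_ite_eq', mem_univ, if_true]
      rw [← Complex.re_mul_ofReal]
      congr 1
      ring
    apply Complex.ext
    · simpa [zr] using key 1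
    · have := key (-Complex.I)
      simpa [zr] using this
  · rw [Set.not_disjoint_iff] at hdisj
    obtain ⟨y, ⟨q, rfl⟩, hy⟩ := hdisj
    let q' : ℕ → ℂ := fun a => if h : a < M + 1 then q ⟨a, h⟩ else 0
    have hq : ∀ j : Fin (d + 1), (zr r ^ (j : ℕ) *
        ∑ a ∈ range (j + 1), ((j : ℕ).choose a : ℂ) * q' a).re = L q j := by
      intro j
      simp only [L, LinearMap.coe_mk, AddHom.coe_mk]
      congr 2
      have h1 : ∑ a : Fin (M + 1), ((j : ℕ).choose a : ℂ) * q a =
          ∑ a ∈ range (M + 1), ((j : ℕ).choose a : ℂ) * q' a := by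
        rw [sum_range]
        refine sum_congr rfl (fun a _ => ?_)
        simp only [q', dif_pos a.2]
      rw [h1]
      have h2 : ∀ N : ℕ, (j : ℕ) + 1 ≤ N → M + 1 ≤ N → ∀ K : ℕ, (K = (j : ℕ) + 1 ∨ K = M + 1) →
          ∑ a ∈ range K, ((j : ℕ).choose a : ℂ) * q' a =
            ∑ a ∈ range N, ((j : ℕ).choose a : ℂ) * q' a := by
        intro N h1 h2 K hK
        refine sum_subset (range_subset_range.2 (by omega)) (fun a _ ha => ?_)
        rw [mem_range] at ha
        rcases hK with hK | hK
        · rw [Nat.choose_eq_zero_of_lt (by omega)]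
          simp
        · simp only [q']
          rw [dif_neg (by omega), mul_zero]
      rw [h2 (j + 1 + (M + 1)) (by omega) (by omega) _ (Or.inl rfl),
        h2 (j + 1 + (M + 1)) (by omega) (by omega) _ (Or.inr rfl)]
    refine ⟨q', fun a ha => dif_neg (by omega), fun j hj => ?_, ?_⟩
    · have := hq ⟨j, by omega⟩
      simp only at this
      rw [this]
      exact hy.1 _
    · by_contra hcon
      push Not at hcon
      have h1 : ∑ j, L q j ≤ 0 := sum_nonpos (fun j _ => by
        rw [← hq]
        exact hcon j (by omega))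
      rw [hy.2] at h1
      linarith

theorem admissible_zero (d : ℕ) (r : ℝ) : Admissible d r 0 := by
  refine ⟨(X + 1) ^ d, ?_, ?_, Nat.zero_le _⟩
  · rw [← C_1, Monic.natDegree_pow (monic_X_add_C _), natDegree_X_add_C, mul_one]
  · intro j hj
    rw [coeff_X_add_one_pow]
    exact_mod_cast Nat.choose_pos hj

theorem logGain_le (d : ℕ) (r : ℝ) : logGain d r ≤ d - 1 := by
  classical
  exact Nat.findGreatest_le _

theorem admissible_logGain (d : ℕ) (r : ℝ) : Admissible d r (logGain d r) := by
  classical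
  exact Nat.findGreatest_spec (Nat.zero_le _) (admissible_zero d r)

theorem not_admissible_succ {d : ℕ} {r : ℝ} (h : logGain d r < d - 1) :
    ¬ Admissible d r (logGain d r + 1) := by
  classical
  exact Nat.findGreatest_is_greatest (Nat.lt_succ_self _) h

end Pool.Agent.Lib.MP_bdf388_an
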