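import Mathlib
import Pool.Agent.Lib.MP_bdf388_an.Basic

set_option autoImplicit false

/-! The trace inequality behind the lower bound. -/

namespace Pool.Agent.Lib.MP_bdf388_an

open MeasureTheory Filter Topology Finset
open scoped Real ENNReal ComplexConjugate

variable {d m : ℕ}

/-- The error of the orthogonal projection. -/
noncomputable def err (u : Fin m → Lp ℂ 2 (torusMeasure d)) (f : Torus d → ℂ) : Torus d → ℂ :=
  fun x => f x - ∑ i, (∫ y, f y * conj (u i y) ∂(torusMeasure d)) * u i x

/-- The orthowidth written with elements of `Lp`. -/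
noncomputable def orthowidthLp (d : ℕ) (F : Set (Torus d → ℂ)) (q : ℝ≥0∞) (m : ℕ) : ℝ≥0∞ :=
  ⨅ (u : Fin m → Lp ℂ 2 (torusMeasure d)) (_ : Orthonormal ℂ u), ⨆ f ∈ F,
    eLpNorm (fun x => f x - ∑ i, (∫ y, f y * conj (u i y) ∂(torusMeasure d)) * u i x) q
      (torusMeasure d)

theorem orthowidth_eq (d : ℕ) (F : Set (Torus d → ℂ)) (q : ℝ≥0∞) (m : ℕ) :
    orthowidth d F q m = orthowidthLp d F q m := by
  classical
  refine le_antisymm (le_iInf₂ (fun u hu => ?_)) (le_iInf₂ (fun u hu => ?_))
  · refine iInf₂_le_of_le (fun i => u i) ⟨fun i => Lp.memLp _, fun i j => ?_⟩ le_rfl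
    have := orthonormal_iff_ite.1 hu j i
    rw [L2.inner_def] at this
    simp only [RCLike.inner_apply] at this
    rw [innerL2, this]
    simp only [eq_comm]
  · have hc : ∀ i, ((hu.1 i).toLp (u i) : Torus d → ℂ) =ᵐ[torusMeasure d] u i :=
      fun i => (hu.1 i).coeFn_toLp
    refine iInf₂_le_of_le (fun i => (hu.1 i).toLp (u i)) ?_ (iSup₂_mono (fun f _ => ?_))
    · rw [orthonormal_iff_ite]
      intro i j
      rw [L2.inner_def]
      have := hu.2 j i
      rw [innerL2] at this
      simp only [RCLike.inner_apply, eq_comm (a := i), ← this]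
      refine integral_congr_ae ?_
      filter_upwards [hc i, hc j] with y h1 h2
      rw [h1, h2]
    · refine le_of_eq (eLpNorm_congr_ae ?_)
      filter_upwards [ae_all_iff.2 hc] with x hx
      congr 1
      refine sum_congr rfl (fun i _ => ?_)
      rw [hx i, innerL2]
      congr 1
      refine integral_congr_ae ?_
      filter_upwards [hc i] with y hy
      rw [hy]

/-- Coefficients of a character in the system. -/
noncomputable def cf (u : Fin m → Lp ℂ 2 (torusMeasure d)) (k : Fin d → ℤ) (i : Fin m) : ℂ :=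
  ∫ y, ek k y * conj (u i y) ∂(torusMeasure d)

/-- Squared norm of the projection of a character. -/
noncomputable def pk (u : Fin m → Lp ℂ 2 (torusMeasure d)) (k : Fin d → ℤ) : ℝ :=
  ∑ i, ‖cf u k i‖ ^ 2

theorem memLp_ek (k : Fin d → ℤ) : MemLp (ek k) 2 (torusMeasure d) :=
  MemLp.of_bound (continuous_ek k).aestronglyMeasurable 1
    (ae_of_all _ (fun x => (norm_ek k x).le))

/-- A character as an element of `L_2`. -/
noncomputable def EL (k : Fin d → ℤ) : Lp ℂ 2 (torusMeasure d) := (memLp_ek k).toLp _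

theorem inner_EL (g : Lp ℂ 2 (torusMeasure d)) (k : Fin d → ℤ) :
    inner ℂ g (EL k) = ∫ y, ek k y * conj (g y) ∂(torusMeasure d) := by
  rw [L2.inner_def]
  refine integral_congr_ae ?_
  filter_upwards [(memLp_ek k).coeFn_toLp] with y hy
  rw [RCLike.inner_apply, EL, hy]

theorem orthonormal_EL : Orthonormal ℂ (EL (d := d)) := by
  classical
  rw [orthonormal_iff_ite]
  intro k l
  rw [inner_EL]
  have : ∫ y, ek l y * conj (EL k y) ∂(torusMeasure d) =
      ∫ y, ek l y * conj (ek k y) ∂(torusMeasure d) := by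
    refine integral_congr_ae ?_
    filter_upwards [(memLp_ek k).coeFn_toLp] with y hy
    rw [EL, hy]
  rw [this, integral_ek_mul_conj]
  simp only [eq_comm]

theorem pk_nonneg (u : Fin m → Lp ℂ 2 (torusMeasure d)) (k : Fin d → ℤ) : 0 ≤ pk u k :=
  sum_nonneg (fun _ _ => by positivity)

theorem pk_le_one {u : Fin m → Lp ℂ 2 (torusMeasure d)} (hu : Orthonormal ℂ u) (k : Fin d → ℤ) :
    pk u k ≤ 1 := by
  have := hu.sum_inner_products_le (EL k) (s := univ)
  rw [orthonormal_EL.1 k, one_pow] at this
  simpa only [pk, cf, inner_EL] using this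

theorem sum_pk_le {u : Fin m → Lp ℂ 2 (torusMeasure d)} (hu : Orthonormal ℂ u)
    (S : Finset (Fin d → ℤ)) : ∑ k ∈ S, pk u k ≤ m := by
  simp only [pk]
  rw [sum_comm]
  calc ∑ i, ∑ k ∈ S, ‖cf u k i‖ ^ 2 ≤ ∑ _i : Fin m, (1 : ℝ) := by
        refine sum_le_sum (fun i _ => ?_)
        have := orthonormal_EL.sum_inner_products_le (u i) (s := S)
        rw [hu.1 i, one_pow] at this
        refine le_trans (le_of_eq ?_) this
        refine sum_congr rfl (fun k _ => ?_)
        rw [norm_inner_symm, inner_EL, cf]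
    _ = m := by simp

theorem integrable_Lp (g : Lp ℂ 2 (torusMeasure d)) : Integrable g (torusMeasure d) :=
  (Lp.memLp g).integrable (by norm_num)

theorem integrable_cont_mul {h g : Torus d → ℂ} (hh : Continuous h)
    (hg : Integrable g (torusMeasure d)) : Integrable (fun x => h x * g x) (torusMeasure d) := by
  obtain ⟨C, hC⟩ := isCompact_univ.exists_bound_of_continuousOn hh.continuousOn
  exact hg.bdd_mul hh.aestronglyMeasurable (ae_of_all _ (fun x => hC x trivial))

theorem integrable_conj {g : Torus d → ℂ} (hg : Integrable g (torusMeasure d)) :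
    Integrable (fun x => conj (g x)) (torusMeasure d) :=
  (Complex.conjCLE : ℂ →L[ℝ] ℂ).integrable_comp hg

theorem mem_classW_of_continuous {r : ℝ} {φ : Torus d → ℂ} (hφ : Continuous φ)
    (h1 : ∫ x, ‖φ x‖ ∂(torusMeasure d) ≤ 1) :
    (fun x => ∫ y, Fc d r (x - y) * φ y ∂(torusMeasure d)) ∈ classW d r 1 := by
  refine ⟨φ, memLp_one_iff_integrable.2 (integrable_of_continuous hφ), ?_, rfl⟩
  rw [eLpNorm_one_eq_lintegral_enorm,
    ← ofReal_integral_norm_eq_lintegral_enorm (integrable_of_continuous hφ)]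
  exact ENNReal.ofReal_le_one.2 h1

theorem trace_bound {r : ℝ} (hr : 1 < r) (u : Fin m → Lp ℂ 2 (torusMeasure d)) {E : ℝ}
    (hE0 : 0 ≤ E)
    (hE : ∀ f ∈ classW d r 1, eLpNorm (err u f) ⊤ (torusMeasure d) ≤ ENNReal.ofReal E)
    (S : Finset (Fin d → ℤ)) (n τ : (Fin d → ℤ) → ℂ) {B C : ℝ} (hB : 0 < B)
    (hn : ∫ x, ‖∑ k ∈ S, n k * ek k x‖ ∂(torusMeasure d) ≤ B)
    (hτ : ∫ x, ‖∑ k ∈ S, τ k * ek k x‖ ∂(torusMeasure d) ≤ C) :
    ‖∑ k ∈ S, Ak r k * n k * conj (τ k) * ((1 - pk u k : ℝ) : ℂ)‖ ≤ E * B * C := by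
  classical
  let G : (Fin d → ℤ) → (Fin d → ℤ) → ℂ := fun k l =>
    (B : ℂ)⁻¹ * n k * Ak r k * conj (τ l) *
      ((if k = l then 1 else 0) - ∑ i, cf u k i * conj (cf u l i))
  let Ψ : Torus d → ℂ := fun y => ∑ k ∈ S, ∑ l ∈ S, G k l * (ek l y * conj (ek k y))
  have hΨ : ∀ y, ‖Ψ y‖ ≤ E * C := by
    intro y
    let φ : Torus d → ℂ := fun z => (B : ℂ)⁻¹ * ∑ k ∈ S, n k * ek k (z - y)
    have hφ : Continuous φ := by fun_prop
    have hφ1 : ∫ x, ‖φ x‖ ∂(torusMeasure d) ≤ 1 := by
      simp only [φ, norm_mul, norm_inv, Complex.norm_real, Real.norm_of_nonneg hB.le]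
      rw [integral_const_mul,
        integral_sub_right_eq_self (fun z => ‖∑ k ∈ S, n k * ek k z‖) y,
        inv_mul_le_iff₀ hB, mul_one]
      exact hn
    let α : (Fin d → ℤ) → ℂ := fun k => (B : ℂ)⁻¹ * n k * Ak r k * conj (ek k y)
    have hf : (fun x => ∫ z, Fc d r (x - z) * φ z ∂(torusMeasure d)) =
        fun x => ∑ k ∈ S, α k * ek k x := by
      funext x
      have : ∀ z, Fc d r (x - z) * φ z =
          ∑ k ∈ S, ((B : ℂ)⁻¹ * n k * conj (ek k y)) * (Fc d r (x - z) * ek k z) := by
        intro z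
        simp only [φ, ek_sub, mul_sum]
        refine sum_congr rfl (fun k _ => by ring)
      simp only [this]
      have hc := continuous_Fc d hr
      rw [integral_finsetSum _ (fun k _ => integrable_of_continuous (by fun_prop))]
      refine sum_congr rfl (fun k _ => ?_)
      rw [integral_const_mul, conv_ek d hr]
      simp only [α]
      ring
    have hmem := hE _ (mem_classW_of_continuous (r := r) hφ hφ1)
    rw [hf] at hmem
    have hae : ∀ᵐ x ∂(torusMeasure d), ‖err u (fun x => ∑ k ∈ S, α k * ek k x) x‖ ≤ E := by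
      rw [eLpNorm_exponent_top] at hmem
      filter_upwards [enorm_ae_le_eLpNormEssSup (err u (fun x => ∑ k ∈ S, α k * ek k x))
        (torusMeasure d)] with x hx
      have := hx.trans hmem
      rwa [← ofReal_norm, ENNReal.ofReal_le_ofReal_iff hE0] at this
    let V : Torus d → ℂ := fun x => ∑ l ∈ S, τ l * ek l (x - y)
    have hV : Continuous V := by fun_prop
    have hcoef : ∀ i, ∫ z, (∑ k ∈ S, α k * ek k z) * conj (u i z) ∂(torusMeasure d) =
        ∑ k ∈ S, α k * cf u k i := by
      intro i
      simp only [sum_mul, mul_assoc]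
      rw [integral_finsetSum _ (fun k _ => (integrable_cont_mul (continuous_ek k)
        (integrable_conj (integrable_Lp (u i)))).const_mul _)]
      simp only [integral_const_mul, cf]
    have hint : ∫ x, conj (V x) * err u (fun x => ∑ k ∈ S, α k * ek k x) x ∂(torusMeasure d) =
        Ψ y := by
      have h1 : ∀ x, conj (V x) * err u (fun x => ∑ k ∈ S, α k * ek k x) x =
          ∑ k ∈ S, ∑ l ∈ S, (α k * conj (τ l) * ek l y) *
            (ek k x * conj (ek l x) - ∑ i, cf u k i * (conj (ek l x) * u i x)) := by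
        intro x
        simp only [err, hcoef, V, map_sum, map_mul, ek_sub, Complex.conj_conj]
        simp only [mul_sub, sum_sub_distrib, mul_sum, sum_mul]
        congr 1
        · refine sum_congr rfl (fun k _ => sum_congr rfl (fun l _ => by ring))
        · rw [sum_comm]
          refine sum_congr rfl (fun k _ => ?_)
          rw [sum_comm]
          refine sum_congr rfl (fun l _ => sum_congr rfl (fun i _ => by ring))
      simp only [h1]
      have hi1 : ∀ k l : Fin d → ℤ,
          Integrable (fun x => ek k x * conj (ek l x)) (torusMeasure d) :=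
        fun k l => integrable_of_continuous (by fun_prop)
      have hi2 : ∀ (l : Fin d → ℤ) i,
          Integrable (fun x => conj (ek l x) * u i x) (torusMeasure d) :=
        fun l i => integrable_cont_mul (by fun_prop) (integrable_Lp (u i))
      have hi3 : ∀ k l : Fin d → ℤ,
          Integrable (fun x => ∑ i, cf u k i * (conj (ek l x) * u i x)) (torusMeasure d) :=
        fun k l => integrable_finsetSum _ (fun i _ => (hi2 l i).const_mul _)
      have hi4 : ∀ k l : Fin d → ℤ, Integrable (fun x => (α k * conj (τ l) * ek l y) *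
          (ek k x * conj (ek l x) - ∑ i, cf u k i * (conj (ek l x) * u i x))) (torusMeasure d) :=
        fun k l => ((hi1 k l).sub (hi3 k l)).const_mul _
      rw [integral_finsetSum _ (fun k _ => integrable_finsetSum _ (fun l _ => hi4 k l))]
      refine sum_congr rfl (fun k _ => ?_)
      rw [integral_finsetSum _ (fun l _ => hi4 k l)]
      refine sum_congr rfl (fun l _ => ?_)
      rw [integral_const_mul, integral_sub (hi1 k l) (hi3 k l), integral_ek_mul_conj,
        integral_finsetSum _ (fun i _ => (hi2 l i).const_mul _)]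
      have h2 : ∀ i, ∫ x, conj (ek l x) * u i x ∂(torusMeasure d) = conj (cf u l i) := by
        intro i
        rw [cf, ← integral_conj]
        simp only [map_mul, Complex.conj_conj]
      simp only [integral_const_mul, h2, G, α]
      ring
    rw [← hint]
    calc ‖∫ x, conj (V x) * err u (fun x => ∑ k ∈ S, α k * ek k x) x ∂(torusMeasure d)‖
        ≤ ∫ x, E * ‖V x‖ ∂(torusMeasure d) := by
          refine norm_integral_le_of_norm_le
            ((integrable_of_continuous hV.norm).const_mul E) ?_
          filter_upwards [hae] with x hx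
          rw [norm_mul, Complex.norm_conj, mul_comm]
          exact mul_le_mul_of_nonneg_right hx (norm_nonneg _)
      _ = E * ∫ x, ‖∑ k ∈ S, τ k * ek k x‖ ∂(torusMeasure d) := by
          rw [integral_const_mul,
            integral_sub_right_eq_self (fun z => ‖∑ k ∈ S, τ k * ek k z‖) y]
      _ ≤ E * C := mul_le_mul_of_nonneg_left hτ hE0
  have hI : ∫ y, Ψ y ∂(torusMeasure d) =
      (B : ℂ)⁻¹ * ∑ k ∈ S, Ak r k * n k * conj (τ k) * ((1 - pk u k : ℝ) : ℂ) := by
    simp only [Ψ]
    rw [integral_finsetSum _ (fun k _ => integrable_of_continuous (by fun_prop)), mul_sum]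
    refine sum_congr rfl (fun k hk => ?_)
    rw [integral_finsetSum _ (fun l _ => integrable_of_continuous (by fun_prop))]
    simp only [integral_const_mul, integral_ek_mul_conj, mul_ite, mul_one, mul_zero,
      sum_ite_eq', if_pos hk, G, if_true, pk, Complex.mul_conj, Complex.normSq_eq_norm_sq]
    push_cast
    ring
  have h3 : ‖∫ y, Ψ y ∂(torusMeasure d)‖ ≤ E * C := by
    have := norm_integral_le_of_norm_le_const (μ := torusMeasure d) (ae_of_all _ hΨ)
    simpa using this
  rw [hI, norm_mul, norm_inv, Complex.norm_real, Real.norm_of_nonneg hB.le,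
    inv_mul_le_iff₀ hB] at h3
  linarith

end Pool.Agent.Lib.MP_bdf388_an
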