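import Mathlib
import Pool.Agent.Lib.MP_bdf388_an.Trace
import Pool.Agent.Lib.MP_bdf388_an.Kernels
import Pool.Agent.Lib.MP_bdf388_an.Poly

set_option autoImplicit false

/-! The lower bound. -/

namespace Pool.Agent.Lib.MP_bdf388_an

open MeasureTheory Filter Topology Finset
open scoped Real ENNReal ComplexConjugate

variable {d m : ℕ}

/-- The number `2 ^ (-r)`. -/
noncomputable def rho (r : ℝ) : ℝ := (2 : ℝ) ^ (-r)

theorem rho_pos (r : ℝ) : 0 < rho r := Real.rpow_pos_of_pos two_pos _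

theorem two_pow_rpow (r : ℝ) (s : ℕ) : ((2 : ℝ) ^ s) ^ (-r) = rho r ^ s :=
  (Real.rpow_pow_comm (by norm_num) _ _).symm

/-- Negative coordinates. -/
def neg (k : Fin d → ℤ) : Finset (Fin d) := univ.filter (fun j => k j < 0)

theorem conj_om (r : ℝ) : conj (om r) = om r * zr r := by
  rw [zr, ← conj_om_sq, ← mul_assoc, om_mul_conj, one_mul]

theorem Ak_eq (r : ℝ) {k : Fin d → ℤ} (hk : ∀ j, k j ≠ 0) :
    Ak r k = ((∏ j, ((k j).natAbs : ℝ) ^ (-r) : ℝ) : ℂ) * om r ^ d * zr r ^ (neg k).card := by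
  have : ∀ j, a1 r (k j) =
      ((((k j).natAbs : ℝ) ^ (-r) : ℝ) : ℂ) * om r * (if k j < 0 then zr r else 1) := by
    intro j
    rw [a1, if_neg (hk j)]
    rcases lt_or_gt_of_ne (hk j) with h | h
    · rw [if_neg (by omega), if_pos h, conj_om, mul_assoc]
    · rw [if_pos h, if_neg (by omega), mul_one]
  simp only [Ak, this, prod_mul_distrib, prod_const, card_univ, Fintype.card_fin, prod_ite,
    one_pow, mul_one, neg]
  push_cast
  rfl

/-- A dyadic block with prescribed signs. -/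
noncomputable def blk (J : Finset (Fin d)) (t : Fin d → ℕ) : Finset (Fin d → ℤ) :=
  Fintype.piFinset (fun j => if j ∈ J then Ioc (-((2 * 2 ^ t j : ℕ) : ℤ)) (-((2 ^ t j : ℕ) : ℤ))
    else Ico ((2 ^ t j : ℕ) : ℤ) ((2 * 2 ^ t j : ℕ) : ℤ))

theorem mem_blk {J : Finset (Fin d)} {t : Fin d → ℕ} {k : Fin d → ℤ} (hk : k ∈ blk J t) (j : Fin d) :
    2 ^ t j ≤ (k j).natAbs ∧ (k j).natAbs < 2 * 2 ^ t j ∧ (k j < 0 ↔ j ∈ J) := by
  have h := Fintype.mem_piFinset.1 hk j
  have h1 : 1 ≤ 2 ^ t j := Nat.one_le_two_pow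
  split_ifs at h with hj
  · rw [mem_Ioc] at h
    simp only [hj, iff_true]
    omega
  · rw [mem_Ico] at h
    simp only [hj, iff_false]
    omega

theorem card_blk (J : Finset (Fin d)) (t : Fin d → ℕ) : (blk J t).card = 2 ^ (∑ j, t j) := by
  rw [blk, Fintype.card_piFinset, ← prod_pow_eq_pow_sum]
  refine prod_congr rfl (fun j _ => ?_)
  split_ifs
  · rw [Int.card_Ioc]; omega
  · rw [Int.card_Ico]; omega

theorem neg_of_mem_blk {J : Finset (Fin d)} {t : Fin d → ℕ} {k : Fin d → ℤ} (hk : k ∈ blk J t) :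
    neg k = J := by
  ext j
  simp [neg, (mem_blk hk j).2.2]

theorem blk_disjoint (J : Finset (Fin d)) {t t' : Fin d → ℕ} (h : t ≠ t') :
    Disjoint (blk J t) (blk J t') := by
  rw [disjoint_left]
  intro k hk hk'
  obtain ⟨j, hj⟩ := Function.ne_iff.1 h
  have h1 := mem_blk hk j
  have h2 := mem_blk hk' j
  rcases lt_or_gt_of_ne hj with h3 | h3
  · have := Nat.pow_le_pow_right (n := 2) two_pos (Nat.succ_le_of_lt h3)
    rw [Nat.pow_succ] at this
    omega
  · have := Nat.pow_le_pow_right (n := 2) two_pos (Nat.succ_le_of_lt h3)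
    rw [Nat.pow_succ] at this
    omega

theorem weight_blk {r : ℝ} (hr : 1 < r) {J : Finset (Fin d)} {t : Fin d → ℕ} {k : Fin d → ℤ}
    (hk : k ∈ blk J t) : rho r ^ (∑ j, t j + d) ≤ ∏ j, ((k j).natAbs : ℝ) ^ (-r) := by
  have : rho r ^ (∑ j, t j + d) = ∏ j, rho r ^ (t j + 1) := by
    rw [prod_pow_eq_pow_sum, sum_add_distrib]
    simp
  rw [this]
  refine prod_le_prod (fun j _ => (pow_pos (rho_pos r) _).le) (fun j _ => ?_)
  rw [← two_pow_rpow]
  have h1 := mem_blk hk j
  have h2 : 1 ≤ 2 ^ t j := Nat.one_le_two_pow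
  refine Real.rpow_le_rpow_of_nonpos (by exact_mod_cast (by omega : 0 < (k j).natAbs)) ?_
    (by linarith)
  have : (k j).natAbs ≤ 2 ^ (t j + 1) := by rw [Nat.pow_succ]; omega
  exact_mod_cast this

theorem sum_blk_ge {u : Fin m → Lp ℂ 2 (torusMeasure d)} (hu : Orthonormal ℂ u)
    (J : Finset (Fin d)) (n : ℕ) :
    (2 : ℝ) ^ n * ((univ : Finset (Fin d)).finsuppAntidiag n).card - m ≤
      ∑ t ∈ (univ : Finset (Fin d)).finsuppAntidiag n, ∑ k ∈ blk J t, (1 - pk u k) := by
  classical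
  simp only [sum_sub_distrib, sum_const, nsmul_eq_mul, mul_one, card_blk]
  have h1 : ∑ t ∈ (univ : Finset (Fin d)).finsuppAntidiag n, ((2 ^ (∑ j, t j) : ℕ) : ℝ) =
      (2 : ℝ) ^ n * ((univ : Finset (Fin d)).finsuppAntidiag n).card := by
    rw [sum_congr rfl (g := fun _ => (2 : ℝ) ^ n)]
    · simp [mul_comm]
    · intro t ht
      rw [(mem_finsuppAntidiag.1 ht).1]
      simp
  rw [h1, ← sum_biUnion]
  · linarith [sum_pk_le hu (((univ : Finset (Fin d)).finsuppAntidiag n).biUnion (fun t => blk J t))]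
  · intro t _ t' _ h
    exact blk_disjoint J (fun h' => h (DFunLike.coe_injective h'))

theorem card_antidiag_ge (hd : 1 ≤ d) (n : ℕ) :
    ((n : ℝ) + 1) ^ (d - 1) / (d - 1).factorial ≤
      ((univ : Finset (Fin d)).finsuppAntidiag n).card := by
  rw [card_finsuppAntidiag_nat_eq_choose, card_univ, Fintype.card_fin,
    ← Nat.choose_symm (by omega : n ≤ d + n - 1)]
  have h := Nat.pow_le_choose (α := ℝ) (d - 1) (d + n - 1)
  have h1 : d + n - 1 + 1 - (d - 1) = n + 1 := by omega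
  have h2 : d + n - 1 - n = d - 1 := by omega
  rw [h1] at h
  rw [h2]
  exact_mod_cast h

/-- A de la Vallee Poussin type multiplier. -/
noncomputable def vp (N : ℕ) : ℤ → ℝ := trap (N + 1) (-(2 * N : ℤ)) (N + 1)

theorem vp_nonneg (N : ℕ) (k : ℤ) : 0 ≤ vp N k := trap_nonneg _ _ _ _

theorem vp_eq_one {N : ℕ} {k : ℤ} (hk : k.natAbs ≤ N) : vp N k = 1 :=
  trap_eq_one (by omega) (by push_cast; omega) (by omega)

theorem vp_eq_zero {N : ℕ} {k : ℤ} (hk : 2 * N < k.natAbs) : vp N k = 0 :=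
  trap_eq_zero (by push_cast; omega)

theorem nL1_vp {N R : ℕ} (h : 2 * N ≤ R) : nL1 R (fun k => (vp N k : ℂ)) ≤ 2 :=
  nL1_trap (by omega) R (by push_cast; omega) (by omega) (by push_cast; omega)

theorem core_bound {r : ℝ} (hr : 1 < r) {u : Fin m → Lp ℂ 2 (torusMeasure d)}
    (hu : Orthonormal ℂ u) {E : ℝ} (hE0 : 0 ≤ E)
    (hE : ∀ f ∈ classW d r 1, eLpNorm (err u f) ⊤ (torusMeasure d) ≤ ENNReal.ofReal E)
    (N : ℕ) (n : (Fin d → ℤ) → ℂ) {B w : ℝ} (hB : 0 < B)
    (hn : ∫ x, ‖∑ k ∈ box d (4 * N), n k * ek k x‖ ∂(torusMeasure d) ≤ B)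
    (Ω : Finset (Fin d → ℤ)) (hΩ : ∀ k ∈ Ω, ∀ j, (k j).natAbs ≤ N)
    (hpos : ∀ k : Fin d → ℤ, (∀ j, (k j).natAbs ≤ 2 * N) → 0 ≤ (Ak r k * n k).re)
    (hw : ∀ k ∈ Ω, w ≤ (Ak r k * n k).re) :
    w * ∑ k ∈ Ω, (1 - pk u k) ≤ E * B * 2 ^ d := by
  have hτ : ∫ x, ‖∑ k ∈ box d (4 * N), (∏ j, (vp N (k j) : ℂ)) * ek k x‖ ∂(torusMeasure d) ≤
      2 ^ d := by
    rw [integral_box_prod (4 * N) (fun _ k => (vp N k : ℂ))]
    simp only [prod_const, card_univ, Fintype.card_fin]
    exact pow_le_pow_left₀ (nL1_nonneg _ _) (nL1_vp (by omega)) d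
  have h := trace_bound hr u hE0 hE (box d (4 * N)) n (fun k => ∏ j, (vp N (k j) : ℂ)) hB hn hτ
  refine le_trans ?_ ((Complex.re_le_norm _).trans h)
  rw [Complex.re_sum]
  have hterm : ∀ k : Fin d → ℤ,
      (Ak r k * n k * conj (∏ j, (vp N (k j) : ℂ)) * ((1 - pk u k : ℝ) : ℂ)).re =
        (Ak r k * n k).re * (∏ j, vp N (k j)) * (1 - pk u k) := by
    intro k
    rw [Complex.re_mul_ofReal, ← Complex.ofReal_prod, Complex.conj_ofReal, Complex.re_mul_ofReal]
  simp only [hterm]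
  have hsub : Ω ⊆ box d (4 * N) := by
    intro k hk
    rw [box, Fintype.mem_piFinset]
    intro j
    have := hΩ k hk j
    rw [mem_Icc]
    omega
  calc w * ∑ k ∈ Ω, (1 - pk u k)
      ≤ ∑ k ∈ Ω, (Ak r k * n k).re * (∏ j, vp N (k j)) * (1 - pk u k) := by
        rw [mul_sum]
        refine sum_le_sum (fun k hk => ?_)
        rw [prod_eq_one (fun j _ => vp_eq_one (hΩ k hk j)), mul_one]
        exact mul_le_mul_of_nonneg_right (hw k hk) (sub_nonneg.2 (pk_le_one hu k))
    _ ≤ _ := by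
        refine sum_le_sum_of_subset_of_nonneg hsub (fun k _ _ => ?_)
        refine mul_nonneg ?_ (sub_nonneg.2 (pk_le_one hu k))
        by_cases hk : ∀ j, (k j).natAbs ≤ 2 * N
        · exact mul_nonneg (hpos k hk) (prod_nonneg (fun j _ => vp_nonneg _ _))
        · push Not at hk
          obtain ⟨j, hj⟩ := hk
          rw [prod_eq_zero (mem_univ j) (vp_eq_zero hj), mul_zero]

theorem conj_om_pow_mul (r : ℝ) (d : ℕ) : om r ^ d * conj (om r) ^ d = 1 := by
  rw [← mul_pow, om_mul_conj, one_pow]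

theorem blk_small {J : Finset (Fin d)} {n : ℕ} {t : Fin d →₀ ℕ}
    (ht : t ∈ (univ : Finset (Fin d)).finsuppAntidiag n) {k : Fin d → ℤ} (hk : k ∈ blk J t)
    (j : Fin d) : (k j).natAbs ≤ 2 * 2 ^ n := by
  have h1 := (mem_blk hk j).2.1
  have h2 : t j ≤ n := by
    rw [← (mem_finsuppAntidiag.1 ht).1]
    exact single_le_sum (f := fun j => t j) (fun _ _ => Nat.zero_le _) (mem_univ j)
  have := Nat.pow_le_pow_right (n := 2) two_pos h2
  omega

theorem block_bound {r : ℝ} (hr : 1 < r) {u : Fin m → Lp ℂ 2 (torusMeasure d)}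
    (hu : Orthonormal ℂ u) {E : ℝ} (hE0 : 0 ≤ E)
    (hE : ∀ f ∈ classW d r 1, eLpNorm (err u f) ⊤ (torusMeasure d) ≤ ENNReal.ofReal E)
    {n : ℕ} {t : Fin d →₀ ℕ} (ht : t ∈ (univ : Finset (Fin d)).finsuppAntidiag n) :
    rho r ^ (n + d) * ∑ k ∈ blk ∅ t, (1 - pk u k) ≤ E * 2 ^ d * 2 ^ d := by
  let c : Fin d → ℤ → ℝ := fun j => trap (2 ^ t j) 1 ((2 * 2 ^ t j : ℕ) : ℤ)
  have hval : ∀ k : Fin d → ℤ, (Ak r k * (conj (om r) ^ d * ∏ j, (c j (k j) : ℂ))).re =
      (∏ j, ((k j).natAbs : ℝ) ^ (-r)) * ∏ j, c j (k j) := by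
    intro k
    by_cases hk : ∀ j, 0 < k j
    · have h0 : neg k = ∅ := by
        ext j
        have := hk j
        simp only [neg, mem_filter, mem_univ, true_and, notMem_empty, iff_false]
        omega
      rw [Ak_eq r (fun j => (hk j).ne'), h0, card_empty, pow_zero, mul_one, mul_assoc,
        ← mul_assoc (om r ^ d), conj_om_pow_mul, one_mul, ← Complex.ofReal_prod,
        ← Complex.ofReal_mul, Complex.ofReal_re]
    · push Not at hk
      obtain ⟨j, hj⟩ := hk
      have : c j (k j) = 0 := trap_eq_zero (Or.inl (by omega))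
      rw [← Complex.ofReal_prod, prod_eq_zero (f := fun j => c j (k j)) (mem_univ j) this]
      simp
  refine core_bound hr hu hE0 hE (2 * 2 ^ n) (fun k => conj (om r) ^ d * ∏ j, (c j (k j) : ℂ))
    (by positivity) ?_ _ (fun k hk => blk_small ht hk) ?_ ?_
  · simp only [mul_assoc, ← mul_sum, norm_mul, norm_pow, Complex.norm_conj, norm_om, one_pow,
      one_mul]
    rw [integral_box_prod _ (fun j k => (c j k : ℂ))]
    calc _ ≤ ∏ _j : Fin d, (2 : ℝ) := by
          refine prod_le_prod (fun j _ => nL1_nonneg _ _) (fun j _ => ?_)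
          have h2 : t j ≤ n := by
            rw [← (mem_finsuppAntidiag.1 ht).1]
            exact single_le_sum (f := fun j => t j) (fun _ _ => Nat.zero_le _) (mem_univ j)
          have := Nat.pow_le_pow_right (n := 2) two_pos h2
          exact nL1_trap (by positivity) _ (by omega) (by omega) (by omega)
      _ = 2 ^ d := by simp
  · intro k _
    rw [hval]
    exact mul_nonneg (prod_nonneg (fun j _ => by positivity))
      (prod_nonneg (fun j _ => trap_nonneg _ _ _ _))
  · intro k hk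
    rw [hval, prod_eq_one (f := fun j => c j (k j)), mul_one, ← (mem_finsuppAntidiag.1 ht).1]
    · exact weight_blk hr hk
    · intro j _
      have h1 := mem_blk hk j
      simp only [notMem_empty, iff_false] at h1
      exact trap_eq_one (by positivity) (by omega) (by omega)

theorem certificate_bound {r : ℝ} (hr : 1 < r) {M : ℕ} (h : ¬ Admissible d r (M + 1)) :
    ∃ (J : Finset (Fin d)) (c : ℝ), 0 < c ∧ ∀ (m : ℕ) (u : Fin m → Lp ℂ 2 (torusMeasure d)),
      Orthonormal ℂ u → ∀ E : ℝ, 0 ≤ E →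
      (∀ f ∈ classW d r 1, eLpNorm (err u f) ⊤ (torusMeasure d) ≤ ENNReal.ofReal E) → ∀ n : ℕ,
      c * rho r ^ (n + d) * ∑ t ∈ (univ : Finset (Fin d)).finsuppAntidiag n,
        ∑ k ∈ blk J t, (1 - pk u k) ≤ E * ((n : ℝ) + 1) ^ M := by
  classical
  obtain ⟨q, hq0, hqpos, j0, hj0, hj0pos⟩ := exists_certificate h
  obtain ⟨J, -, hJ⟩ := exists_subset_card_eq (s := (univ : Finset (Fin d))) (n := j0)
    (by simpa using hj0)
  set y0 := (zr r ^ j0 * ∑ a ∈ range (j0 + 1), (j0.choose a : ℂ) * q a).re with hy0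
  set Q : ℝ := (∑ I : Finset (Fin d), ‖q I.card‖ + 1) * 5 ^ d with hQ
  have hQ0 : 0 < Q := by positivity
  refine ⟨J, y0 / (Q * 2 ^ d), by positivity, fun m u hu E hE0 hE n => ?_⟩
  let c : Finset (Fin d) → Fin d → ℤ → ℂ := fun I j k =>
    (if j ∈ I then (lan (2 ^ (n + 2)) k : ℂ) else (vp (2 ^ (n + 2)) k : ℂ)) -
      if k = 0 then 1 else 0
  let ν : (Fin d → ℤ) → ℂ := fun k =>
    conj (om r) ^ d * ∑ I : Finset (Fin d), q I.card * ∏ j, c I j (k j)
  have hpow : 2 ^ (n + 2) = 2 * (2 * 2 ^ n) := by ring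
  have hval : ∀ k : Fin d → ℤ, (∀ j, (k j).natAbs ≤ 2 * (2 * 2 ^ n)) → (Ak r k * ν k).re =
      if ∀ j, k j ≠ 0 then (∏ j, ((k j).natAbs : ℝ) ^ (-r)) *
        (zr r ^ (neg k).card * ∑ a ∈ range ((neg k).card + 1),
          ((neg k).card.choose a : ℂ) * q a).re else 0 := by
    intro k hk
    have hc : ∀ I j, c I j (k j) = if k j = 0 then 0 else if j ∈ I → k j < 0 then 1 else 0 := by
      intro I j
      have hkj := hk j
      simp only [c]
      by_cases hI : j ∈ I
      · rcases lt_trichotomy (k j) 0 with h1 | h1 | h1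
        · rw [if_pos hI, lan_eq_one (by omega) h1.le]
          simp [h1.ne, h1]
        · rw [if_pos hI, lan_eq_one (by omega) h1.le]
          simp [h1]
        · rw [if_pos hI, lan_eq_zero h1]
          simp [h1.ne', hI, h1.le]
      · rw [if_neg hI, vp_eq_one (by omega)]
        by_cases h1 : k j = 0 <;> simp [h1, hI]
    split_ifs with h0
    · have h1 : ∀ I : Finset (Fin d), ∏ j, c I j (k j) = if I ⊆ neg k then 1 else 0 := by
        intro I
        simp only [hc, h0, if_false, prod_boole, mem_univ, true_imp_iff]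
        congr 1
        simp [neg, subset_iff]
      have h2 : ∑ I : Finset (Fin d), q I.card * ∏ j, c I j (k j) =
          ∑ a ∈ range ((neg k).card + 1), ((neg k).card.choose a : ℂ) * q a := by
        simp only [h1, mul_ite, mul_one, mul_zero]
        have h3 : univ.filter (fun I : Finset (Fin d) => I ⊆ neg k) = (neg k).powerset := by
          ext I
          simp
        rw [← sum_filter, h3, sum_powerset_apply_card]
        simp only [nsmul_eq_mul]
      simp only [ν]
      rw [h2, Ak_eq r h0, ← Complex.re_ofReal_mul]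
      congr 1
      linear_combination (((∏ j, ((k j).natAbs : ℝ) ^ (-r) : ℝ) : ℂ) * zr r ^ (neg k).card *
        ∑ a ∈ range ((neg k).card + 1), ((neg k).card.choose a : ℂ) * q a) * conj_om_pow_mul r d
    · push Not at h0
      obtain ⟨j, hj⟩ := h0
      have : ∀ I : Finset (Fin d), ∏ j, c I j (k j) = 0 := fun I =>
        prod_eq_zero (mem_univ j) (by rw [hc, if_pos hj])
      simp [ν, this]
  have hn1 : (1 : ℝ) ≤ (n : ℝ) + 1 := by linarith [Nat.cast_nonneg (α := ℝ) n]
  have hL1 : ∫ x, ‖∑ k ∈ box d (4 * (2 * 2 ^ n)), ν k * ek k x‖ ∂(torusMeasure d) ≤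
      Q * ((n : ℝ) + 1) ^ M := by
    have h1 : ∀ x, ‖∑ k ∈ box d (4 * (2 * 2 ^ n)), ν k * ek k x‖ ≤
        ∑ I : Finset (Fin d), ‖q I.card‖ *
          ‖∑ k ∈ box d (4 * (2 * 2 ^ n)), (∏ j, c I j (k j)) * ek k x‖ := by
      intro x
      simp only [ν, mul_assoc, ← mul_sum, norm_mul, norm_pow, Complex.norm_conj, norm_om, one_pow,
        one_mul, sum_mul]
      rw [sum_comm]
      refine (norm_sum_le _ _).trans (le_of_eq (sum_congr rfl (fun I _ => ?_)))
      rw [← mul_sum, norm_mul]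
    refine (integral_mono (integrable_of_continuous (by fun_prop))
      (integrable_of_continuous (by fun_prop)) h1).trans ?_
    rw [integral_finsetSum _ (fun I _ => integrable_of_continuous (by fun_prop))]
    simp only [integral_const_mul, integral_box_prod]
    calc ∑ I : Finset (Fin d), ‖q I.card‖ * ∏ j, nL1 (4 * (2 * 2 ^ n)) (c I j)
        ≤ ∑ I : Finset (Fin d), ‖q I.card‖ * (5 ^ d * ((n : ℝ) + 1) ^ M) := by
          refine sum_le_sum (fun I _ => ?_)
          by_cases hI : M < I.card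
          · simp [hq0 _ hI]
          refine mul_le_mul_of_nonneg_left ?_ (norm_nonneg _)
          calc ∏ j, nL1 (4 * (2 * 2 ^ n)) (c I j)
              ≤ ∏ j, 5 * (if j ∈ I then (n : ℝ) + 1 else 1) := by
                refine prod_le_prod (fun j _ => nL1_nonneg _ _) (fun j _ => ?_)
                refine (nL1_sub_delta _ _).trans ?_
                split_ifs
                · have := nL1_lan (n + 2) (4 * (2 * 2 ^ n)) (by omega)
                  push_cast at this ⊢
                  linarith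
                · have := nL1_vp (N := 2 ^ (n + 2)) (R := 4 * (2 * 2 ^ n)) (by omega)
                  linarith
            _ = 5 ^ d * ((n : ℝ) + 1) ^ I.card := by
                rw [prod_mul_distrib]
                simp
            _ ≤ 5 ^ d * ((n : ℝ) + 1) ^ M := by
                gcongr
                omega
      _ ≤ Q * ((n : ℝ) + 1) ^ M := by
          rw [← sum_mul, hQ, mul_assoc]
          gcongr
          linarith
  have hcore := core_bound hr hu hE0 hE (2 * 2 ^ n) ν (w := rho r ^ (n + d) * y0)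
    (by positivity) hL1
    (((univ : Finset (Fin d)).finsuppAntidiag n).biUnion (fun t => blk J t)) ?_ ?_ ?_
  · rw [sum_biUnion (fun t _ t' _ h => blk_disjoint J (fun h' => h (DFunLike.coe_injective h')))]
      at hcore
    rw [div_mul_eq_mul_div, div_mul_eq_mul_div, div_le_iff₀ (by positivity)]
    linarith
  · intro k hk
    obtain ⟨t, ht, hk⟩ := mem_biUnion.1 hk
    exact blk_small ht hk
  · intro k hk
    rw [hval k hk]
    split_ifs
    · exact mul_nonneg (prod_nonneg (fun j _ => by positivity))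
        (hqpos _ (by simpa using card_le_univ (neg k)))
    · exact le_rfl
  · intro k hk
    obtain ⟨t, ht, hk⟩ := mem_biUnion.1 hk
    rw [hval k (fun j => by have := blk_small ht hk j; omega), if_pos, neg_of_mem_blk hk, hJ,
      ← (mem_finsuppAntidiag.1 ht).1]
    · exact mul_le_mul_of_nonneg_right (weight_blk hr hk) hj0pos.le
    · intro j
      have h1 := (mem_blk hk j).1
      have h2 : 1 ≤ 2 ^ t j := Nat.one_le_two_pow
      omega

theorem lower_bound (hd : 1 ≤ d) {r : ℝ} (hr : 1 < r) :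
    ∃ c : ℝ, 0 < c ∧ ∀ (m : ℕ) (u : Fin m → Lp ℂ 2 (torusMeasure d)),
      Orthonormal ℂ u → ∀ E : ℝ, 0 ≤ E →
      (∀ f ∈ classW d r 1, eLpNorm (err u f) ⊤ (torusMeasure d) ≤ ENNReal.ofReal E) → ∀ n : ℕ,
      2 * (m : ℝ) * (d - 1).factorial ≤ 2 ^ n * ((n : ℝ) + 1) ^ (d - 1) →
      c * ((2 * rho r) ^ n * ((n : ℝ) + 1) ^ (d - 1 - logGain d r)) ≤ E := by
  have hρ := rho_pos r
  have hhalf : ∀ m n : ℕ, 2 * (m : ℝ) * (d - 1).factorial ≤ 2 ^ n * ((n : ℝ) + 1) ^ (d - 1) →
      (2 : ℝ) ^ n * ((univ : Finset (Fin d)).finsuppAntidiag n).card / 2 ≤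
        (2 : ℝ) ^ n * ((univ : Finset (Fin d)).finsuppAntidiag n).card - m := by
    intro m n h
    have h1 := card_antidiag_ge hd n
    rw [div_le_iff₀ (by positivity)] at h1
    have h2 : 2 * (m : ℝ) * (d - 1).factorial ≤
        2 ^ n * ((univ : Finset (Fin d)).finsuppAntidiag n).card * (d - 1).factorial := by
      rw [mul_assoc (2 ^ n)]
      exact h.trans (by gcongr)
    have h3 := le_of_mul_le_mul_right h2 (by positivity)
    linarith
  rcases (logGain_le d r).lt_or_eq with hM | hM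
  · obtain ⟨J, c, hc, hb⟩ := certificate_bound hr (not_admissible_succ hM)
    refine ⟨c * rho r ^ d / (2 * (d - 1).factorial), by positivity,
      fun m u hu E hE0 hE n hn => ?_⟩
    have h1 := hb m u hu E hE0 hE n
    have h2 := (hhalf m n hn).trans (sum_blk_ge hu J n)
    have h3 := card_antidiag_ge hd n
    have h4 : c * rho r ^ (n + d) * (2 ^ n * (((n : ℝ) + 1) ^ (d - 1) / (d - 1).factorial) / 2) ≤
        E * ((n : ℝ) + 1) ^ logGain d r := by
      refine le_trans ?_ h1
      gcongr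
      refine le_trans ?_ h2
      gcongr
    have h5 : ((n : ℝ) + 1) ^ (d - 1) =
        ((n : ℝ) + 1) ^ (d - 1 - logGain d r) * ((n : ℝ) + 1) ^ logGain d r := by
      rw [← pow_add]
      congr 1
      omega
    refine le_of_mul_le_mul_right (le_trans (le_of_eq ?_) h4) (by positivity)
    rw [h5, mul_pow, pow_add]
    field_simp
  · refine ⟨rho r ^ d / (2 * 2 ^ d * 2 ^ d), by positivity, fun m u hu E hE0 hE n hn => ?_⟩
    have h2 := (hhalf m n hn).trans (sum_blk_ge hu ∅ n)
    have h3 := card_antidiag_ge hd n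
    have hT : (0 : ℝ) < ((univ : Finset (Fin d)).finsuppAntidiag n).card :=
      lt_of_lt_of_le (by positivity) h3
    have h4 : rho r ^ (n + d) * ∑ t ∈ (univ : Finset (Fin d)).finsuppAntidiag n,
        ∑ k ∈ blk ∅ t, (1 - pk u k) ≤
        ((univ : Finset (Fin d)).finsuppAntidiag n).card * (E * 2 ^ d * 2 ^ d) := by
      rw [mul_sum, ← nsmul_eq_mul]
      exact sum_le_card_nsmul _ _ _ (fun t ht => block_bound hr hu hE0 hE ht)
    have h5 : rho r ^ (n + d) *
        ((2 : ℝ) ^ n * ((univ : Finset (Fin d)).finsuppAntidiag n).card / 2) ≤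
        ((univ : Finset (Fin d)).finsuppAntidiag n).card * (E * 2 ^ d * 2 ^ d) :=
      le_trans (by gcongr) h4
    rw [hM, Nat.sub_self, pow_zero, mul_one, div_mul_eq_mul_div, div_le_iff₀ (by positivity)]
    refine le_of_mul_le_mul_left ?_ hT
    rw [pow_add] at h5
    rw [mul_pow]
    linarith

end Pool.Agent.Lib.MP_bdf388_an
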