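import Mathlib

set_option autoImplicit false

/-! Growth of coefficients of products, and the Newton remainder. -/

namespace Pool.Agent.Lib.MP_bdf388_an

open Finset Polynomial Filter Topology

/-- Partial sums of the norms of the coefficients. -/
noncomputable def N1 (f : ℂ[X]) (u : ℕ) : ℝ := ∑ i ∈ range (u + 1), ‖f.coeff i‖

theorem N1_nonneg (f : ℂ[X]) (u : ℕ) : 0 ≤ N1 f u := sum_nonneg (fun _ _ => norm_nonneg _)

theorem coeff_le_N1 (f : ℂ[X]) (u : ℕ) : ‖f.coeff u‖ ≤ N1 f u :=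
  single_le_sum (f := fun i => ‖f.coeff i‖) (fun _ _ => norm_nonneg _) (by simp)

theorem coeff_mul_le (f g : ℂ[X]) (u : ℕ) {B : ℝ} (hB : ∀ i, ‖g.coeff i‖ ≤ B) :
    ‖(f * g).coeff u‖ ≤ N1 f u * B := by
  rw [coeff_mul, Finset.Nat.sum_antidiagonal_eq_sum_range_succ (fun a b => f.coeff a * g.coeff b),
    N1, sum_mul]
  refine (norm_sum_le _ _).trans (sum_le_sum (fun i _ => ?_))
  rw [norm_mul]
  exact mul_le_mul_of_nonneg_left (hB _) (norm_nonneg _)

theorem N1_mul (f g : ℂ[X]) (u : ℕ) : N1 (f * g) u ≤ N1 f u * N1 g u := by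
  calc N1 (f * g) u
      ≤ ∑ i ∈ range (u + 1), ∑ k ∈ range (i + 1), ‖f.coeff k‖ * ‖g.coeff (i - k)‖ := by
        refine sum_le_sum (fun i _ => ?_)
        rw [coeff_mul,
          Finset.Nat.sum_antidiagonal_eq_sum_range_succ (fun a b => f.coeff a * g.coeff b)]
        refine (norm_sum_le _ _).trans (le_of_eq (sum_congr rfl (fun k _ => norm_mul _ _)))
    _ = ∑ a ∈ range (u + 1), ∑ k ∈ range (u + 1 - a), ‖f.coeff a‖ * ‖g.coeff k‖ :=
        sum_range_diag_flip (u + 1) (fun a k => ‖f.coeff a‖ * ‖g.coeff k‖)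
    _ ≤ N1 f u * N1 g u := by
        rw [N1, sum_mul]
        refine sum_le_sum (fun a _ => ?_)
        rw [← mul_sum]
        refine mul_le_mul_of_nonneg_left ?_ (norm_nonneg _)
        exact sum_le_sum_of_subset_of_nonneg (range_subset_range.2 (by omega))
          (fun _ _ _ => norm_nonneg _)

theorem N1_one (u : ℕ) : N1 1 u = 1 := by
  simp [N1, coeff_one, apply_ite]

theorem N1_prod {ι : Type} (s : Finset ι) (f : ι → ℂ[X]) (u : ℕ) :
    N1 (∏ j ∈ s, f j) u ≤ ∏ j ∈ s, N1 (f j) u := by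
  classical
  induction s using Finset.induction_on with
  | empty => simp [N1_one]
  | insert a s ha ih =>
    rw [prod_insert ha, prod_insert ha]
    exact (N1_mul _ _ _).trans (mul_le_mul_of_nonneg_left ih (N1_nonneg _ _))

theorem coeff_prod_le {d M : ℕ} (hM : M < d) (f : Fin d → ℂ[X]) (I : Finset (Fin d))
    (hI : M ≤ I.card) {C : ℝ} (hb : ∀ j i, ‖(f j).coeff i‖ ≤ C)
    (hs : ∀ j ∈ I, ∀ u, N1 (f j) u ≤ C) (u : ℕ) :
    ‖(∏ j, f j).coeff u‖ ≤ C ^ d * ((u : ℝ) + 1) ^ (d - 1 - M) := by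
  obtain ⟨I', hI', hcard⟩ := exists_subset_card_eq hI
  obtain ⟨j0, -, hj0⟩ := exists_mem_notMem_of_card_lt_card (s := I') (t := univ)
    (by simpa [hcard] using hM)
  have hC : 0 ≤ C := (norm_nonneg _).trans (hb j0 0)
  rw [← prod_erase_mul _ _ (mem_univ j0)]
  refine (coeff_mul_le _ _ u (hb j0)).trans ?_
  have h1 : N1 (∏ j ∈ univ.erase j0, f j) u ≤ C ^ (d - 1) * ((u : ℝ) + 1) ^ (d - 1 - M) := by
    refine (N1_prod _ _ _).trans ?_
    calc ∏ j ∈ univ.erase j0, N1 (f j) u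
        ≤ ∏ j ∈ univ.erase j0, C * (if j ∈ I' then 1 else (u : ℝ) + 1) := by
          refine prod_le_prod (fun _ _ => N1_nonneg _ _) (fun j _ => ?_)
          split_ifs with h
          · rw [mul_one]
            exact hs j (hI' h) u
          · refine (sum_le_card_nsmul _ _ C (fun i _ => hb j i)).trans (le_of_eq ?_)
            simp [mul_comm]
      _ = C ^ (d - 1) * ((u : ℝ) + 1) ^ (d - 1 - M) := by
          rw [prod_mul_distrib, prod_const, prod_ite, prod_const_one, one_mul, prod_const,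
            card_erase_of_mem (mem_univ _), card_univ, Fintype.card_fin]
          congr 2
          have h2 : (univ.erase j0).filter (fun j => j ∉ I') = (univ.erase j0) \ I' := by
            ext j
            simp
          have h3 : I' ⊆ univ.erase j0 := fun j hj => mem_erase.2
            ⟨fun h : j = j0 => hj0 (h ▸ hj), mem_univ _⟩
          rw [h2, card_sdiff_of_subset h3, card_erase_of_mem (mem_univ _), card_univ,
            Fintype.card_fin, hcard]
  calc _ ≤ C ^ (d - 1) * ((u : ℝ) + 1) ^ (d - 1 - M) * C := mul_le_mul_of_nonneg_right h1 hC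
    _ = _ := by
      have : C ^ d = C ^ (d - 1) * C := by rw [← pow_succ]; congr 1; omega
      rw [this]
      ring

theorem newton (M : ℕ) : ∀ (G : ℕ → ℂ) (V : ℕ) (B : ℝ),
    (∀ w ≤ V, ‖(fwdDiff 1)^[M] G w‖ ≤ B) → ∀ v ≤ V,
      ‖G v - ∑ k ∈ range M, (v.choose k : ℂ) * (fwdDiff 1)^[k] G 0‖ ≤ (v : ℝ) ^ M * B := by
  induction M with
  | zero =>
    intro G V B h v hv
    simpa using h v hv
  | succ M ih =>
    intro G V B h v hv
    have hB : 0 ≤ B := (norm_nonneg _).trans (h 0 (Nat.zero_le _))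
    induction v with
    | zero => simp [sum_range_succ']
    | succ v ihv =>
      have h1 := ih (fwdDiff 1 G) V B h v (by omega)
      have h2 := ihv (by omega)
      have h3 : G (v + 1) - ∑ k ∈ range (M + 1), ((v + 1).choose k : ℂ) * (fwdDiff 1)^[k] G 0 =
          (G v - ∑ k ∈ range (M + 1), (v.choose k : ℂ) * (fwdDiff 1)^[k] G 0) +
          (fwdDiff 1 G v - ∑ k ∈ range M, (v.choose k : ℂ) * (fwdDiff 1)^[k] (fwdDiff 1 G) 0) := by
        simp only [sum_range_succ', Nat.choose_succ_succ', Nat.choose_zero_right,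
          Function.iterate_succ_apply, Nat.cast_add, add_mul, sum_add_distrib, fwdDiff]
        ring
      rw [h3]
      refine (norm_add_le _ _).trans ((add_le_add h2 h1).trans ?_)
      rw [← add_mul]
      refine mul_le_mul_of_nonneg_right ?_ hB
      push_cast
      calc (v : ℝ) ^ (M + 1) + (v : ℝ) ^ M = (v : ℝ) ^ M * (v + 1) := by ring
        _ ≤ ((v : ℝ) + 1) ^ M * (v + 1) := by gcongr; linarith
        _ = _ := by ring

theorem fwdDiff_coeff (g : ℂ[X]) (n M : ℕ) (w : ℕ) :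
    (fwdDiff 1)^[M] (fun v => g.coeff (n + v)) w = ((1 - X) ^ M * g).coeff (n + w + M) := by
  induction M generalizing w with
  | zero => simp
  | succ M ih =>
    rw [Function.iterate_succ_apply', fwdDiff, ih, ih, pow_succ', mul_assoc, sub_mul, one_mul,
      coeff_sub, ← add_assoc (n + w) M 1, coeff_X_mul]
    congr 2
    ring

theorem summable_poly_geom {l : ℝ} (h0 : 0 < l) (h1 : l < 1) (a K : ℕ) :
    Summable (fun v : ℕ => l ^ v * ((v : ℝ) + a) ^ K) := by
  have h := (summable_nat_add_iff a).2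
    (summable_pow_mul_geometric_of_norm_lt_one K (r := l) (by rwa [Real.norm_of_nonneg h0.le]))
  refine (h.mul_left (l ^ a)⁻¹).congr (fun v => ?_)
  push_cast
  field_simp
  ring

theorem tail_correction {l : ℝ} (h0 : 0 < l) (h1 : l < 1) (M p : ℕ) {η : ℝ} (hη : 0 < η) :
    ∃ (L : ℕ) (e : ℕ → ℝ) (C : ℝ), M ≤ L ∧ (∀ i < M, |e i| ≤ η) ∧ 0 ≤ C ∧
      ∀ (G : ℕ → ℂ) (D : ℝ) (n : ℕ), 0 ≤ D →
      (∀ w, ‖(fwdDiff 1)^[M] G w‖ ≤ D * (((n + w + M : ℕ) : ℝ) + 1) ^ p) → ∀ s : ℂ,
      HasSum (fun v => ((l ^ (v + L) : ℝ) : ℂ) * G (v + L)) s →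
      ‖s - ∑ i ∈ range M, (e i : ℂ) * G i‖ ≤ C * D * ((n : ℝ) + 1) ^ p := by
  have hsum : ∀ k : ℕ, Summable (fun v : ℕ => l ^ v * (v.choose k : ℝ)) := by
    intro k
    refine Summable.of_nonneg_of_le (fun v => by positivity) (fun v => ?_)
      (summable_poly_geom h0 h1 0 k)
    refine mul_le_mul_of_nonneg_left ?_ (by positivity)
    simp only [Nat.cast_zero, add_zero]
    exact_mod_cast Nat.choose_le_pow v k
  let τ : ℕ → ℕ → ℝ := fun k L => ∑' v, l ^ (v + L) * ((v + L).choose k : ℝ)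
  let w : ℕ → ℕ → ℝ := fun k i => (((-1 : ℤ) ^ (k - i) * k.choose i : ℤ) : ℝ)
  let e : ℕ → ℕ → ℝ := fun L i => ∑ k ∈ range M, τ k L * w k i
  have hlim : ∀ i, Tendsto (fun L => |e L i|) atTop (𝓝 0) := by
    intro i
    have : Tendsto (fun L => e L i) atTop (𝓝 (∑ k ∈ range M, 0 * w k i)) :=
      tendsto_finsetSum _ (fun k _ =>
        (tendsto_sum_nat_add (fun v => l ^ v * (v.choose k : ℝ))).mul_const _)
    simpa using this.abs
  have hev : ∀ᶠ L in atTop, M ≤ L ∧ ∀ i ∈ range M, |e L i| ≤ η :=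
    (eventually_ge_atTop M).and ((eventually_all_finset _).2
      (fun i _ => (hlim i).eventually (ge_mem_nhds hη)))
  obtain ⟨L, hL, he⟩ := hev.exists
  have hS := summable_poly_geom h0 h1 (M + 1) (M + p)
  refine ⟨L, e L, ∑' v : ℕ, l ^ v * ((v : ℝ) + (M + 1 : ℕ)) ^ (M + p), hL,
    fun i hi => he i (mem_range.2 hi), tsum_nonneg (fun v => by positivity), ?_⟩
  intro G D n hD hG s hs
  have h2 : ∑ i ∈ range M, (e L i : ℂ) * G i =
      ∑ k ∈ range M, (τ k L : ℂ) * (fwdDiff 1)^[k] G 0 := by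
    simp only [e]
    push_cast
    simp only [sum_mul]
    rw [sum_comm]
    refine sum_congr rfl (fun k hk => ?_)
    rw [fwdDiff_iter_eq_sum_shift, mul_sum]
    symm
    rw [mem_range] at hk
    refine sum_subset_zero_on_sdiff (range_subset_range.2 (by omega)) ?_ ?_
    · intro i hi
      rw [Finset.mem_sdiff, mem_range, mem_range] at hi
      simp [w, Nat.choose_eq_zero_of_lt (by omega : k < i)]
    · intro i _
      simp [w, mul_assoc]
  have h3 : HasSum (fun v => ∑ k ∈ range M,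
      ((l ^ (v + L) * ((v + L).choose k : ℝ) : ℝ) : ℂ) * (fwdDiff 1)^[k] G 0)
      (∑ k ∈ range M, (τ k L : ℂ) * (fwdDiff 1)^[k] G 0) :=
    hasSum_sum (fun k _ => (Complex.hasSum_ofReal.2
      ((summable_nat_add_iff L).2 (hsum k)).hasSum).mul_right _)
  rw [h2]
  have h4 := ((summable_nat_add_iff L).2 hS).hasSum.mul_right (D * ((n : ℝ) + 1) ^ p)
  refine ((hs.sub h3).norm_le_of_bounded h4 (fun v => ?_)).trans ?_
  · have h5 := newton M G (v + L) (D * (((n + (v + L) + M : ℕ) : ℝ) + 1) ^ p)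
      (fun w hw => (hG w).trans (by gcongr)) (v + L) le_rfl
    have h6 : ((l ^ (v + L) : ℝ) : ℂ) * G (v + L) - ∑ k ∈ range M,
        ((l ^ (v + L) * ((v + L).choose k : ℝ) : ℝ) : ℂ) * (fwdDiff 1)^[k] G 0 =
        ((l ^ (v + L) : ℝ) : ℂ) * (G (v + L) -
          ∑ k ∈ range M, ((v + L).choose k : ℂ) * (fwdDiff 1)^[k] G 0) := by
      rw [mul_sub, mul_sum]
      congr 1
      refine sum_congr rfl (fun k _ => ?_)
      push_cast
      ring
    rw [h6, norm_mul, Complex.norm_real, Real.norm_of_nonneg (by positivity), mul_assoc]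
    refine mul_le_mul_of_nonneg_left (h5.trans ?_) (by positivity)
    generalize v + L = y
    have h7 : ((n + y + M : ℕ) : ℝ) + 1 ≤ ((y : ℝ) + (M + 1 : ℕ)) * (n + 1) := by
      push_cast
      nlinarith [Nat.cast_nonneg (α := ℝ) n, Nat.cast_nonneg (α := ℝ) y,
        Nat.cast_nonneg (α := ℝ) M]
    calc (y : ℝ) ^ M * (D * (((n + y + M : ℕ) : ℝ) + 1) ^ p)
        ≤ ((y : ℝ) + (M + 1 : ℕ)) ^ M * (D * (((y : ℝ) + (M + 1 : ℕ)) * (n + 1)) ^ p) := by
          gcongr
          linarith [Nat.cast_nonneg (α := ℝ) (M + 1)]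
      _ = _ := by
          rw [mul_pow, pow_add]
          ring
  · rw [mul_assoc]
    refine mul_le_mul_of_nonneg_right ?_ (by positivity)
    rw [← hS.sum_add_tsum_nat_add L]
    exact le_add_of_nonneg_left (sum_nonneg (fun v _ => by positivity))

end Pool.Agent.Lib.MP_bdf388_an
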