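import Mathlib
import Pool.Agent.Lib.MP_bdf388_an.Poly

set_option autoImplicit false

/-! Values of the integer `logGain d r`. -/

namespace Pool.Agent.Lib.MP_bdf388_an

open Finset Polynomial
open scoped Real ComplexConjugate

theorem zr_re (r : ℝ) : (zr r).re = Real.cos (π * r) := by
  rw [zr, ← Complex.ofReal_mul, Complex.exp_ofReal_mul_I_re]

theorem norm_zr (r : ℝ) : ‖zr r‖ = 1 := by
  rw [zr, ← Complex.ofReal_mul, Complex.norm_exp_ofReal_mul_I]

theorem sq_zr (r : ℝ) : (zr r).re ^ 2 + (zr r).im ^ 2 = 1 := by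
  have := Complex.sq_norm (zr r)
  rw [norm_zr, Complex.normSq_apply] at this
  nlinarith

theorem logGain_odd {d : ℕ} {r : ℝ} (h : Real.cos (π * r) = -1) : logGain d r = d - 1 := by
  classical
  have hz : zr r = -1 := by
    have h1 := sq_zr r
    rw [zr_re, h] at h1
    refine Complex.ext (by rw [zr_re, h]; simp) ?_
    have : (zr r).im = 0 := by nlinarith
    simpa using this
  refine Nat.findGreatest_eq ⟨(X + 1) ^ d, ?_, ?_, ?_⟩
  · rw [← C_1, Monic.natDegree_pow (monic_X_add_C _), natDegree_X_add_C, mul_one]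
  · intro j hj
    rw [coeff_X_add_one_pow]
    exact_mod_cast Nat.choose_pos hj
  · change d - 1 ≤ rootMultiplicity (zr r) _
    have : ((X + 1 : ℝ[X]) ^ d).map (algebraMap ℝ ℂ) = (X - C (-1 : ℂ)) ^ d := by simp
    rw [this, hz, rootMultiplicity_X_sub_C_pow]
    omega

theorem root_sum {d M : ℕ} {r : ℝ} {p : ℝ[X]} (hdeg : p.natDegree = d) (hM : 1 ≤ M)
    (hroot : M ≤ (p.map (algebraMap ℝ ℂ)).rootMultiplicity (zr r)) :
    ∑ j ∈ range (d + 1), (p.coeff j : ℂ) * zr r ^ j = 0 := by
  have h1 : IsRoot (p.map (algebraMap ℝ ℂ)) (zr r) :=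
    (rootMultiplicity_pos'.1 (lt_of_lt_of_le hM hroot)).2
  rw [IsRoot, eval_eq_sum_range, natDegree_map, hdeg] at h1
  simpa using h1

theorem two_mul_logGain_le {d : ℕ} {r : ℝ} (h : Real.cos (π * r) ≠ -1) :
    2 * logGain d r ≤ d := by
  classical
  obtain ⟨p, hdeg, hpos, hroot⟩ := admissible_logGain d r
  change _ ≤ rootMultiplicity (zr r) _ at hroot
  rcases Nat.eq_zero_or_pos (logGain d r) with h0 | h0
  · omega
  have hs := root_sum hdeg h0 hroot
  have hne : conj (zr r) ≠ zr r := by
    intro hc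
    have him : (zr r).im = 0 := Complex.conj_eq_iff_im.1 hc
    have h1 := sq_zr r
    have hre : (zr r).re = 1 := by
      rw [him] at h1
      rw [← zr_re] at h
      have : ((zr r).re - 1) * ((zr r).re + 1) = 0 := by nlinarith
      rcases mul_eq_zero.1 this with h2 | h2
      · linarith
      · exact absurd (by linarith) h
    have hz : zr r = 1 := Complex.ext (by simpa using hre) (by simpa using him)
    rw [hz] at hs
    simp only [one_pow, mul_one] at hs
    have : 0 < ∑ j ∈ range (d + 1), p.coeff j :=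
      sum_pos (fun j hj => hpos j (by have := mem_range.1 hj; omega)) nonempty_range_add_one
    have h2 : ∑ j ∈ range (d + 1), p.coeff j = 0 := by exact_mod_cast hs
    linarith
  set P := p.map (algebraMap ℝ ℂ) with hP
  have hP0 : P ≠ 0 := (rootMultiplicity_pos'.1 (lt_of_lt_of_le h0 hroot)).1
  have hconj : P.map (starRingEnd ℂ) = P := by
    rw [hP, Polynomial.map_map]
    congr 1
    ext x
    simp
  have h2 : logGain d r ≤ rootMultiplicity (conj (zr r)) P := by
    rw [← hconj, ← eq_rootMultiplicity_map (starRingEnd ℂ).injective]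
    exact hroot
  have h3 : (X - C (zr r)) ^ logGain d r * (X - C (conj (zr r))) ^ logGain d r ∣ P :=
    IsCoprime.mul_dvd (isCoprime_X_sub_C_of_isUnit_sub (sub_ne_zero.2 hne.symm).isUnit).pow
      ((le_rootMultiplicity_iff hP0).1 hroot) ((le_rootMultiplicity_iff hP0).1 h2)
  have h4 := natDegree_le_of_dvd h3 hP0
  rw [Monic.natDegree_mul ((monic_X_sub_C _).pow _) ((monic_X_sub_C _).pow _),
    (monic_X_sub_C _).natDegree_pow, (monic_X_sub_C _).natDegree_pow, natDegree_X_sub_C,
    natDegree_X_sub_C, hP, natDegree_map, hdeg] at h4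
  omega

theorem trig_zero {d : ℕ} (hd : 2 ≤ d) {θ A B : ℝ} (h1 : π / d < θ) (h2 : θ ≤ π)
    (h : ∀ j ≤ d, 0 ≤ A * Real.cos (j * θ) + B * Real.sin (j * θ)) (j : ℕ) :
    A * Real.cos (j * θ) + B * Real.sin (j * θ) = 0 := by
  classical
  have hd0 : (0 : ℝ) < d := by positivity
  have hθ : 0 < θ := (div_pos Real.pi_pos hd0).trans h1
  have w0 := h 0 (by omega)
  have w1 := h 1 (by omega)
  simp only [Nat.cast_zero, zero_mul, Real.cos_zero, mul_one, Real.sin_zero, mul_zero, add_zero,
    Nat.cast_one, one_mul] at w0 w1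
  rcases h2.lt_or_eq with h2 | rfl
  · have hex : ∃ k : ℕ, π < k * θ := ⟨d, by rwa [div_lt_iff₀' hd0] at h1⟩
    have hk1 := Nat.find_spec hex
    have hkd : Nat.find hex ≤ d := Nat.find_min' hex (by rwa [div_lt_iff₀' hd0] at h1)
    obtain ⟨k, hk⟩ : ∃ k, Nat.find hex = k + 1 := by
      rcases h0 : Nat.find hex with _ | k
      · rw [h0] at hk1
        simp at hk1
        linarith [Real.pi_pos]
      · exact ⟨k, rfl⟩
    have hk2 : k * θ ≤ π := not_lt.1 (Nat.find_min hex (by omega))
    rw [hk] at hk1 hkd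
    have wk := h k (by omega)
    have wk1 := h (k + 1) hkd
    push_cast at hk1 wk1
    have s1 : 0 < Real.sin θ := Real.sin_pos_of_pos_of_lt_pi hθ h2
    have s2 : 0 ≤ Real.sin (k * θ) := Real.sin_nonneg_of_nonneg_of_le_pi (by positivity) hk2
    have s3 : Real.sin ((k + 1) * θ) < 0 := by
      have := Real.sin_pos_of_pos_of_lt_pi (x := (k + 1) * θ - π) (by linarith) (by nlinarith)
      rw [Real.sin_sub_pi] at this
      linarith
    have e1 : Real.sin ((k + 1) * θ) =
        Real.sin (k * θ) * Real.cos θ + Real.cos (k * θ) * Real.sin θ := by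
      rw [add_mul, one_mul, Real.sin_add]
    have e2 : Real.cos ((k + 1) * θ) =
        Real.cos (k * θ) * Real.cos θ - Real.sin (k * θ) * Real.sin θ := by
      rw [add_mul, one_mul, Real.cos_add]
    have p1 := Real.sin_sq_add_cos_sq θ
    have p2 := Real.sin_sq_add_cos_sq (k * θ)
    have i1 : Real.sin (k * θ) * (A * Real.cos ((k + 1) * θ) + B * Real.sin ((k + 1) * θ)) +
        Real.sin θ * A + (-Real.sin ((k + 1) * θ)) *
        (A * Real.cos (k * θ) + B * Real.sin (k * θ)) = 0 := by
      rw [e1, e2]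
      linear_combination (-A * Real.sin θ) * p2
    have i2 : Real.sin θ * (A * Real.cos ((k + 1) * θ) + B * Real.sin ((k + 1) * θ)) +
        Real.sin (k * θ) * A + (-Real.sin ((k + 1) * θ)) *
        (A * Real.cos θ + B * Real.sin θ) = 0 := by
      rw [e1, e2]
      linear_combination (-A * Real.sin (k * θ)) * p1
    have hA : A = 0 := by
      have := mul_nonneg s2 wk1
      have := mul_nonneg (neg_pos.2 s3).le wk
      have : Real.sin θ * A ≤ 0 := by linarith
      nlinarith
    have hB : B = 0 := by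
      have := mul_nonneg s1.le wk1
      have := mul_nonneg s2 w0
      have h3 : (-Real.sin ((k + 1) * θ)) * (A * Real.cos θ + B * Real.sin θ) ≤ 0 := by linarith
      have h4 : A * Real.cos θ + B * Real.sin θ = 0 := by nlinarith
      rw [hA, zero_mul, zero_add] at h4
      exact (mul_eq_zero.1 h4).resolve_right s1.ne'
    simp [hA, hB]
  · simp only [Real.cos_pi, Real.sin_pi] at w1
    have hA : A = 0 := by linarith
    simp [hA]

theorem zr_pow (r : ℝ) : ∃ θ s : ℝ, 0 ≤ θ ∧ θ ≤ π ∧ s ≠ 0 ∧ Real.cos θ = Real.cos (π * r) ∧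
    ∀ j : ℕ, (zr r ^ j).re = Real.cos (j * θ) ∧ (zr r ^ j).im = s * Real.sin (j * θ) := by
  have hz : zr r = Complex.exp ((zr r).arg * Complex.I) := by
    have := Complex.norm_mul_exp_arg_mul_I (zr r)
    rw [norm_zr] at this
    simpa using this.symm
  set θ := (zr r).arg
  have hj : ∀ j : ℕ, (zr r ^ j).re = Real.cos (j * θ) ∧ (zr r ^ j).im = Real.sin (j * θ) := by
    intro j
    rw [hz, ← Complex.exp_nat_mul, ← mul_assoc, ← Complex.ofReal_natCast, ← Complex.ofReal_mul,
      Complex.exp_ofReal_mul_I_re, Complex.exp_ofReal_mul_I_im]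
    exact ⟨rfl, rfl⟩
  have hc : Real.cos θ = Real.cos (π * r) := by
    have := (hj 1).1
    rw [pow_one, zr_re] at this
    simpa using this.symm
  rcases le_total 0 θ with h | h
  · exact ⟨θ, 1, h, Complex.arg_le_pi _, one_ne_zero, hc, fun j => by simpa using hj j⟩
  · exact ⟨-θ, -1, by linarith, by linarith [Complex.neg_pi_lt_arg (zr r)], by norm_num,
      by simpa using hc, fun j => by simpa using hj j⟩

theorem one_le_logGain_iff {d : ℕ} {r : ℝ} :
    1 ≤ logGain d r ↔ 2 ≤ d ∧ Real.cos (π * r) < Real.cos (π / d) := by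
  classical
  obtain ⟨θ, s, h0, hπ, hs, hc, hj⟩ := zr_pow r
  constructor
  · intro h
    have hd : 2 ≤ d := by have := logGain_le d r; omega
    have hd0 : (0 : ℝ) < d := by positivity
    have hd2 : (2 : ℝ) ≤ d := by exact_mod_cast hd
    refine ⟨hd, not_le.1 (fun hle => ?_)⟩
    have hπd : π / d ≤ π := div_le_self Real.pi_pos.le (by linarith)
    have hθ : θ ≤ π / d := by
      by_contra hlt
      have := Real.cos_lt_cos_of_nonneg_of_le_pi (by positivity) hπ (not_le.1 hlt)
      linarith
    obtain ⟨p, hdeg, hpos, hroot⟩ := admissible_logGain d r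
    have hsum := root_sum hdeg h hroot
    rcases h0.lt_or_eq with h0 | rfl
    · have h1 := congrArg Complex.im hsum
      rw [Complex.im_sum] at h1
      simp only [Complex.im_ofReal_mul, (hj _).2, Complex.zero_im, mul_left_comm _ s] at h1
      rw [← mul_sum] at h1
      have h2 := (mul_eq_zero.1 h1).resolve_left hs
      have h3 : 0 < ∑ j ∈ range (d + 1), p.coeff j * Real.sin (j * θ) := by
        refine sum_pos' (fun j hj' => ?_) ⟨1, mem_range.2 (by omega), ?_⟩
        · have hjd : j ≤ d := by have := mem_range.1 hj'; omega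
          refine mul_nonneg (hpos j hjd).le
            (Real.sin_nonneg_of_nonneg_of_le_pi (by positivity) ?_)
          have : (j : ℝ) ≤ d := by exact_mod_cast hjd
          rw [le_div_iff₀' hd0] at hθ
          nlinarith
        · refine mul_pos (hpos 1 (by omega)) ?_
          rw [Nat.cast_one, one_mul]
          refine Real.sin_pos_of_pos_of_lt_pi h0 ?_
          rw [le_div_iff₀' hd0] at hθ
          nlinarith
      linarith
    · have h1 := congrArg Complex.re hsum
      rw [Complex.re_sum] at h1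
      simp only [Complex.re_ofReal_mul, (hj _).1, Complex.zero_re, mul_zero, Real.cos_zero,
        mul_one] at h1
      have : 0 < ∑ j ∈ range (d + 1), p.coeff j :=
        sum_pos (fun j hj => hpos j (by have := mem_range.1 hj; omega)) nonempty_range_add_one
      linarith
  · rintro ⟨hd, hlt⟩
    have hd0 : (0 : ℝ) < d := by positivity
    have hd2 : (2 : ℝ) ≤ d := by exact_mod_cast hd
    have hπd : π / d ≤ π := div_le_self Real.pi_pos.le (by linarith)
    have hθ : π / d < θ := by
      by_contra hle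
      have := Real.cos_le_cos_of_nonneg_of_le_pi h0 hπd (not_lt.1 hle)
      linarith
    refine Nat.le_findGreatest (by omega) ?_
    by_contra hna
    obtain ⟨q, hq0, hq1, j, hjd, hq2⟩ := exists_certificate (M := 0) hna
    have hw : ∀ j : ℕ, (zr r ^ j * ∑ a ∈ range (j + 1), (j.choose a : ℂ) * q a).re =
        (q 0).re * Real.cos (j * θ) + (-s * (q 0).im) * Real.sin (j * θ) := by
      intro j
      rw [sum_eq_single 0 (fun a _ ha => by rw [hq0 a (by omega), mul_zero])
        (fun h => absurd (mem_range.2 (by omega)) h)]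
      simp only [Nat.choose_zero_right, Nat.cast_one, one_mul, Complex.mul_re, (hj j).1, (hj j).2]
      ring
    have := trig_zero hd hθ hπ (fun j hj => by rw [← hw]; exact hq1 j hj) j
    rw [hw, this] at hq2
    exact lt_irrefl _ hq2

end Pool.Agent.Lib.MP_bdf388_an
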