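import Mathlib
import Pool.Agent.Lib.MP_bdf388_an.Upper

set_option autoImplicit false

/-! Passing from dyadic scales to all `m`. -/

namespace Pool.Agent.Lib.MP_bdf388_an

open Finset Filter Topology MeasureTheory
open scoped Real ENNReal

theorem rpow_cmp {a b C : ℝ} (ha : 0 < a) (hb : 0 < b) (hC : 1 ≤ C) (h1 : a ≤ C * b)
    (h2 : b ≤ C * a) (t : ℝ) : a ^ t ≤ C ^ |t| * b ^ t := by
  have hC0 : 0 < C := by linarith
  rcases le_total 0 t with ht | ht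
  · rw [abs_of_nonneg ht, ← Real.mul_rpow hC0.le hb.le]
    exact Real.rpow_le_rpow ha.le h1 ht
  · rw [abs_of_nonpos ht]
    have h3 : b / C ≤ a := by rw [div_le_iff₀ hC0]; linarith
    refine (Real.rpow_le_rpow_of_nonpos (by positivity) h3 ht).trans (le_of_eq ?_)
    rw [Real.div_rpow hb.le hC0.le, Real.rpow_neg hC0.le, div_eq_mul_inv, mul_comm]

theorem log_cmp (D : ℕ) {C : ℝ} (hC : 1 ≤ C) : ∃ C' : ℝ, 1 ≤ C' ∧ ∀ n m : ℕ, 2 ≤ m →
    (2 : ℝ) ^ n * ((n : ℝ) + 1) ^ D ≤ C * m → (m : ℝ) ≤ C * (2 ^ n * ((n : ℝ) + 1) ^ D) →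
    Real.log m ≤ C' * ((n : ℝ) + 1) ∧ (n : ℝ) + 1 ≤ C' * Real.log m := by
  have hl2 : 0 < Real.log 2 := Real.log_pos one_lt_two
  have hl2' : Real.log 2 ≤ 1 := by
    have := Real.log_le_sub_one_of_pos (x := 2) two_pos
    linarith
  have hC0 : 0 < C := by linarith
  have hlC : 0 ≤ Real.log C := Real.log_nonneg hC
  refine ⟨Real.log C + 1 + D + (Real.log C / Real.log 2 + 2) / Real.log 2, ?_,
    fun n m hm h1 h2 => ⟨?_, ?_⟩⟩
  · have : 0 ≤ (Real.log C / Real.log 2 + 2) / Real.log 2 := by positivity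
    have : (0 : ℝ) ≤ D := by positivity
    linarith
  · have hm0 : (0 : ℝ) < m := by positivity
    have hn : (0 : ℝ) ≤ n := by positivity
    have h3 := Real.log_le_log hm0 h2
    rw [Real.log_mul hC0.ne' (by positivity), Real.log_mul (by positivity) (by positivity),
      Real.log_pow, Real.log_pow] at h3
    have h4 : Real.log ((n : ℝ) + 1) ≤ (n : ℝ) + 1 := by
      have := Real.log_le_sub_one_of_pos (x := (n : ℝ) + 1) (by positivity)
      linarith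
    have h5 : (D : ℝ) * Real.log ((n : ℝ) + 1) ≤ D * ((n : ℝ) + 1) := by gcongr
    have h6 : 0 ≤ (Real.log C / Real.log 2 + 2) / Real.log 2 * ((n : ℝ) + 1) := by positivity
    nlinarith [mul_nonneg hlC hn, mul_le_mul_of_nonneg_left hl2' hn]
  · have hm2 : (2 : ℝ) ≤ m := by exact_mod_cast hm
    have hm0 : (0 : ℝ) < m := by positivity
    have hlm : Real.log 2 ≤ Real.log m := Real.log_le_log two_pos hm2
    have h3 : (2 : ℝ) ^ n ≤ C * m :=
      (le_mul_of_one_le_right (by positivity) (one_le_pow₀ (by simp))).trans h1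
    have h4 := Real.log_le_log (by positivity) h3
    rw [Real.log_mul hC0.ne' hm0.ne', Real.log_pow] at h4
    have h5 : Real.log C ≤ Real.log C / Real.log 2 * Real.log m := by
      rw [div_mul_eq_mul_div, le_div_iff₀ hl2]
      gcongr
    have h6 : (n : ℝ) + 1 ≤ (Real.log C / Real.log 2 + 2) / Real.log 2 * Real.log m := by
      rw [div_mul_eq_mul_div, le_div_iff₀ hl2]
      nlinarith
    have h7 : 0 ≤ (Real.log C + 1 + D) * Real.log m := by
      have : 0 ≤ Real.log m := hl2.le.trans hlm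
      positivity
    nlinarith

theorem scale_cmp (D M : ℕ) (hM : M ≤ D) (r : ℝ) {C : ℝ} (hC : 1 ≤ C) :
    ∃ C' : ℝ, 0 < C' ∧ ∀ n m : ℕ, 2 ≤ m →
    (2 : ℝ) ^ n * ((n : ℝ) + 1) ^ D ≤ C * m → (m : ℝ) ≤ C * (2 ^ n * ((n : ℝ) + 1) ^ D) →
    (m : ℝ) ^ (1 - r) * Real.log m ^ ((D : ℝ) * r - M) ≤
      C' * (lam r ^ n * ((n : ℝ) + 1) ^ (D - M)) ∧
    lam r ^ n * ((n : ℝ) + 1) ^ (D - M) ≤
      C' * ((m : ℝ) ^ (1 - r) * Real.log m ^ ((D : ℝ) * r - M)) := by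
  obtain ⟨C', hC', h⟩ := log_cmp D hC
  have hC0 : 0 < C := by linarith
  have hC0' : 0 < C' := by linarith
  refine ⟨C ^ |1 - r| * C' ^ |(D : ℝ) * r - M|, by positivity, fun n m hm h1 h2 => ?_⟩
  obtain ⟨h3, h4⟩ := h n m hm h1 h2
  have hm2 : (2 : ℝ) ≤ m := by exact_mod_cast hm
  have hm0 : (0 : ℝ) < m := by positivity
  have hlm : 0 < Real.log m := Real.log_pos (by linarith)
  have hn : (0 : ℝ) < (n : ℝ) + 1 := by positivity
  have hψ : (0 : ℝ) < 2 ^ n * ((n : ℝ) + 1) ^ D := by positivity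
  have key : lam r ^ n * ((n : ℝ) + 1) ^ (D - M) =
      (2 ^ n * ((n : ℝ) + 1) ^ D) ^ (1 - r) * ((n : ℝ) + 1) ^ ((D : ℝ) * r - M) := by
    rw [Real.mul_rpow (by positivity) (by positivity), mul_assoc, ← Real.rpow_natCast _ D,
      ← Real.rpow_mul hn.le, ← Real.rpow_add hn, ← Real.rpow_natCast _ (D - M),
      Nat.cast_sub hM]
    congr 1
    · rw [← Real.rpow_natCast 2 n, ← Real.rpow_mul two_pos.le, mul_comm,
        Real.rpow_mul two_pos.le, Real.rpow_natCast, lam, rho, sub_eq_add_neg,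
        Real.rpow_add two_pos, Real.rpow_one]
    · congr 1
      ring
  rw [key]
  constructor
  · rw [mul_mul_mul_comm]
    exact mul_le_mul (rpow_cmp hm0 hψ hC h2 h1 _) (rpow_cmp hlm hn hC' h3 h4 _)
      (by positivity) (by positivity)
  · rw [mul_mul_mul_comm]
    exact mul_le_mul (rpow_cmp hψ hm0 hC h1 h2 _) (rpow_cmp hn hlm hC' h4 h3 _)
      (by positivity) (by positivity)

theorem psi_succ (D n : ℕ) : (2 : ℝ) ^ (n + 1) * (((n + 1 : ℕ) : ℝ) + 1) ^ D ≤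
    2 ^ (D + 1) * (2 ^ n * ((n : ℝ) + 1) ^ D) := by
  have h : (((n + 1 : ℕ) : ℝ) + 1) ^ D ≤ (2 * ((n : ℝ) + 1)) ^ D := by
    gcongr
    push_cast
    linarith [Nat.cast_nonneg (α := ℝ) n]
  calc (2 : ℝ) ^ (n + 1) * (((n + 1 : ℕ) : ℝ) + 1) ^ D
      ≤ (2 : ℝ) ^ (n + 1) * (2 * ((n : ℝ) + 1)) ^ D := by gcongr
    _ = _ := by rw [mul_pow]; ring

/-- For every real `x ≥ 0` there is a scale `n` with `x ≤ ψ n ≤ 2 ^ (D + 1) * max x 1`. -/
theorem exists_scale (D : ℕ) (x : ℝ) : ∃ n : ℕ, x < (2 : ℝ) ^ n * ((n : ℝ) + 1) ^ D ∧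
    (n = 0 ∨ ∃ k : ℕ, n = k + 1 ∧ (2 : ℝ) ^ k * ((k : ℝ) + 1) ^ D ≤ x) := by
  classical
  have hex : ∃ n : ℕ, x < (2 : ℝ) ^ n * ((n : ℝ) + 1) ^ D := by
    obtain ⟨n, hn⟩ := pow_unbounded_of_one_lt x (one_lt_two (α := ℝ))
    exact ⟨n, hn.trans_le (le_mul_of_one_le_right (by positivity) (one_le_pow₀ (by simp)))⟩
  refine ⟨Nat.find hex, Nat.find_spec hex, ?_⟩
  rcases h : Nat.find hex with _ | k
  · exact Or.inl rfl
  · exact Or.inr ⟨k, rfl, not_lt.1 (Nat.find_min hex (by omega))⟩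

theorem poly_le_two_pow (D : ℕ) : ∃ C : ℝ, 1 ≤ C ∧ ∀ n : ℕ, ((n : ℝ) + 1) ^ D ≤ C * 2 ^ n := by
  have h := (summable_pow_mul_geometric_of_norm_lt_one (R := ℝ) D (r := 1 / 2)
    (by norm_num)).tendsto_atTop_zero
  obtain ⟨B, hB⟩ := h.bddAbove_range
  refine ⟨2 * |B| + 1, by have := abs_nonneg B; linarith, fun n => ?_⟩
  have h1 : ((n + 1 : ℕ) : ℝ) ^ D * (1 / 2) ^ (n + 1) ≤ B := hB ⟨n + 1, rfl⟩
  push_cast at h1
  rw [one_div, inv_pow, ← div_eq_mul_inv, div_le_iff₀ (by positivity)] at h1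
  have h2 : B * 2 ^ (n + 1) ≤ |B| * 2 ^ (n + 1) := by gcongr; exact le_abs_self B
  have h3 : (0 : ℝ) < 2 ^ n := by positivity
  rw [pow_succ] at h2 h1
  nlinarith

variable {d : ℕ}

theorem order_lower (hd : 1 ≤ d) {r : ℝ} (hr : 1 < r) : ∃ c : ℝ, 0 < c ∧ ∀ m : ℕ, 2 ≤ m →
    ENNReal.ofReal (c * ((m : ℝ) ^ (1 - r) *
      Real.log m ^ (((d - 1 : ℕ) : ℝ) * r - logGain d r))) ≤ orthowidthLp d (classW d r 1) ⊤ m := by
  obtain ⟨c, hc, h⟩ := lower_bound hd hr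
  have hf : (1 : ℝ) ≤ (d - 1).factorial := by exact_mod_cast (d - 1).factorial_pos
  have hp : (1 : ℝ) ≤ 2 ^ (d - 1 + 1) := one_le_pow₀ one_le_two
  obtain ⟨C', hC', h2⟩ := scale_cmp (d - 1) (logGain d r) (logGain_le d r) r
    (C := 2 ^ (d - 1 + 1) * (2 * (d - 1).factorial)) (by nlinarith)
  refine ⟨c / C', by positivity, fun m hm => ?_⟩
  have hm2 : (2 : ℝ) ≤ m := by exact_mod_cast hm
  obtain ⟨n, hn1, hn2⟩ := exists_scale (d - 1) (2 * (m : ℝ) * (d - 1).factorial)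
  have hψ : (0 : ℝ) < 2 ^ n * ((n : ℝ) + 1) ^ (d - 1) := by positivity
  have h3 := (h2 n m hm ?_ ?_).1
  · refine le_iInf₂ (fun u hu => ?_)
    change _ ≤ ⨆ f ∈ classW d r 1, eLpNorm (err u f) ⊤ (torusMeasure d)
    set S := ⨆ f ∈ classW d r 1, eLpNorm (err u f) ⊤ (torusMeasure d) with hS
    rcases eq_or_ne S ⊤ with hT | hT
    · rw [hT]
      exact le_top
    · rw [← ENNReal.ofReal_toReal hT]
      refine ENNReal.ofReal_le_ofReal (le_trans ?_ (h m u hu S.toReal ENNReal.toReal_nonneg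
        (fun f hf => ?_) n hn1.le))
      · rw [div_mul_eq_mul_div, div_le_iff₀ hC', mul_assoc, mul_comm _ C']
        exact mul_le_mul_of_nonneg_left h3 hc.le
      · rw [ENNReal.ofReal_toReal hT]
        exact le_iSup₂_of_le f hf le_rfl
  · rcases hn2 with rfl | ⟨k, rfl, hk⟩
    · simp only [pow_zero, Nat.cast_zero, zero_add, one_pow, mul_one]
      have : (1 : ℝ) ≤ 2 ^ (d - 1 + 1) * (2 * (d - 1).factorial) := by nlinarith
      nlinarith
    · refine (psi_succ _ _).trans ?_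
      rw [mul_assoc]
      refine mul_le_mul_of_nonneg_left (hk.trans (le_of_eq ?_)) (by positivity)
      ring
  · have : (1 : ℝ) ≤ 2 ^ (d - 1 + 1) * (2 * (d - 1).factorial) := by nlinarith
    have h4 : (m : ℝ) ≤ 2 ^ n * ((n : ℝ) + 1) ^ (d - 1) := by nlinarith
    nlinarith

theorem order_upper (hd : 1 ≤ d) {r : ℝ} (hr : 1 < r) : ∃ c : ℝ, 0 < c ∧ ∀ m : ℕ, 2 ≤ m →
    orthowidthLp d (classW d r 1) ⊤ m ≤ ENNReal.ofReal (c * ((m : ℝ) ^ (1 - r) *
      Real.log m ^ (((d - 1 : ℕ) : ℝ) * r - logGain d r))) := by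
  obtain ⟨C0, K, hC0, hK, h⟩ := upper_bound hd hr
  obtain ⟨K0, hK0, h0⟩ := trivial_bound hd hr
  obtain ⟨B, hB1, hB⟩ := poly_le_two_pow (d - 1)
  set C : ℝ := 1 + C0⁻¹ + C0 * 2 ^ (d - 1 + 1) with hCdef
  have hp : (1 : ℝ) ≤ 2 ^ (d - 1 + 1) := one_le_pow₀ one_le_two
  have hi : 0 < C0⁻¹ := by positivity
  have hC1 : 1 ≤ C := by
    have : 0 ≤ C0 * 2 ^ (d - 1 + 1) := by positivity
    linarith
  obtain ⟨C', hC', h2⟩ := scale_cmp (d - 1) (logGain d r) (logGain_le d r) r hC1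
  refine ⟨(K0 + K * (1 + C * B)) * C', by positivity, fun m hm => ?_⟩
  have hm2 : (2 : ℝ) ≤ m := by exact_mod_cast hm
  have hl := lam_pos r
  have hρ := rho_pos r
  obtain ⟨n, hn1, hn2⟩ := exists_scale (d - 1) ((m : ℝ) / C0)
  rw [div_lt_iff₀ hC0] at hn1
  rcases hn2 with rfl | ⟨k, rfl, hk⟩
  · simp only [pow_zero, Nat.cast_zero, zero_add, one_pow, mul_one, one_mul] at hn1
    have h3 := (h2 0 m hm (by simp; nlinarith) (by simp; nlinarith)).2
    simp only [pow_zero, Nat.cast_zero, zero_add, one_pow, mul_one] at h3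
    refine (h0 m).trans (ENNReal.ofReal_le_ofReal ?_)
    rw [mul_assoc]
    have : 0 ≤ K * (1 + C * B) := by positivity
    nlinarith
  · rw [le_div_iff₀ hC0] at hk
    have hψ : (0 : ℝ) < 2 ^ k * ((k : ℝ) + 1) ^ (d - 1) := by positivity
    have h4 : (m : ℝ) ≤ C * (2 ^ k * ((k : ℝ) + 1) ^ (d - 1)) := by
      have := mul_le_mul_of_nonneg_right (psi_succ (d - 1) k) hC0.le
      nlinarith
    have h5 : (2 : ℝ) ^ k * ((k : ℝ) + 1) ^ (d - 1) ≤ C * m := by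
      have h6 : (2 : ℝ) ^ k * ((k : ℝ) + 1) ^ (d - 1) ≤ C0⁻¹ * m := by
        rw [inv_mul_eq_div, le_div_iff₀ hC0]
        exact hk
      have : 0 ≤ C0 * 2 ^ (d - 1 + 1) * m := by positivity
      nlinarith
    have h3 := (h2 k m hm h5 h4).2
    refine (h k m (by linarith)).trans (ENNReal.ofReal_le_ofReal ?_)
    have h6 : √m ≤ C * B * 2 ^ k := by
      rw [Real.sqrt_le_left (by positivity)]
      have h7 : (m : ℝ) ≤ C * B * (2 ^ k) ^ 2 := by
        refine h4.trans ?_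
        have := mul_le_mul_of_nonneg_left (hB k) (show (0 : ℝ) ≤ C * 2 ^ k by positivity)
        nlinarith
      have h8 : 1 ≤ C * B := by nlinarith
      rw [mul_pow]
      refine h7.trans (mul_le_mul_of_nonneg_right ?_ (by positivity))
      nlinarith
    have h7 : √m * rho r ^ k ≤
        C * B * (lam r ^ k * ((k : ℝ) + 1) ^ (d - 1 - logGain d r)) := by
      refine (mul_le_mul_of_nonneg_right h6 (by positivity)).trans ?_
      rw [mul_assoc, ← mul_pow]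
      refine mul_le_mul_of_nonneg_left ?_ (by positivity)
      exact le_mul_of_one_le_right (by positivity) (one_le_pow₀ (by simp))
    set X := lam r ^ k * ((k : ℝ) + 1) ^ (d - 1 - logGain d r)
    have hX : 0 ≤ X := by positivity
    calc K * (X + √m * rho r ^ k) ≤ K * (X + C * B * X) := by gcongr
      _ = K * (1 + C * B) * X := by ring
      _ ≤ (K0 + K * (1 + C * B)) * X := by gcongr; linarith
      _ ≤ _ := by rw [mul_assoc]; gcongr

end Pool.Agent.Lib.MP_bdf388_an
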