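import Mathlib
import Pool.Agent.Lib.MP_bdf388_an.Defs
import Pool.Agent.Lib.MP_bdf388_an.Final
import Pool.Agent.Lib.MP_bdf388_an.Eval

set_option autoImplicit false

open Pool.Agent.Lib.MP_bdf388_an
open scoped Real

/-- The order of the orthowidth of `W^r_1` in `L_∞`, with the values of the integer `logGain`. -/
theorem Pool.Agent.Lib.MP_bdf388_an.order_old (d : ℕ) (hd : 1 ≤ d) (r : ℝ) (hr : 1 < r) :
    (∃ c₁ c₂ : ℝ, 0 < c₁ ∧ 0 < c₂ ∧ ∀ m : ℕ, 2 ≤ m →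
      ENNReal.ofReal (c₁ * ((m : ℝ) ^ (1 - r) *
          Real.log m ^ (((d : ℝ) - 1) * r - (logGain d r : ℝ)))) ≤
        orthowidth d (classW d r 1) ⊤ m ∧
      orthowidth d (classW d r 1) ⊤ m ≤
        ENNReal.ofReal (c₂ * ((m : ℝ) ^ (1 - r) *
          Real.log m ^ (((d : ℝ) - 1) * r - (logGain d r : ℝ))))) ∧
    (1 ≤ logGain d r ↔ 2 ≤ d ∧ Real.cos (π * r) < Real.cos (π / d)) ∧
    (Real.cos (π * r) = -1 → logGain d r = d - 1) ∧
    (Real.cos (π * r) ≠ -1 → 2 * logGain d r ≤ d) := by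
  refine ⟨?_, one_le_logGain_iff, logGain_odd, two_mul_logGain_le⟩
  obtain ⟨c₁, h1, h2⟩ := order_lower hd hr
  obtain ⟨c₂, h3, h4⟩ := order_upper hd hr
  refine ⟨c₁, c₂, h1, h3, fun m hm => ?_⟩
  have h5 := h2 m hm
  have h6 := h4 m hm
  rw [Nat.cast_sub hd, Nat.cast_one, ← orthowidth_eq] at h5 h6
  exact ⟨h5, h6⟩
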